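import Pool.Agent.Lib.MP_7f333f_an.Un.URep
import Pool.Agent.Lib.MP_7f333f_an.Lin.Crit

set_option autoImplicit false

/-!
The odd action of a group which is locally of finite index over an open subgroup, on the
combinatorial space of the family.
-/

namespace Pool.Agent.Comb7f333f.UPart

open Finset

section Cocycle

variable {G : Type*} [Group G] {H : Subgroup G} {z : G} {hz : ∀ g, g * z = z * g}
  {hzz : z * z = 1}

/-- The transition element. -/
noncomputable def loc (g : G) (y : G ⧸ addZ H z hz hzz) : G :=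
  (Quotient.out (g • y))⁻¹ * g * Quotient.out y

theorem loc_mem (g : G) (y : G ⧸ addZ H z hz hzz) : loc g y ∈ addZ H z hz hzz := by
  unfold loc
  rw [mul_assoc]
  refine QuotientGroup.eq.1 ?_
  rw [QuotientGroup.out_eq']
  have h1 : ((g * Quotient.out y : G) : G ⧸ addZ H z hz hzz) =
    g • ((Quotient.out y : G) : G ⧸ addZ H z hz hzz) := rfl
  rw [h1, QuotientGroup.out_eq']

theorem loc_mul (g h : G) (y : G ⧸ addZ H z hz hzz) :
    loc (g * h) y = loc g (h • y) * loc h y := by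
  unfold loc
  rw [mul_smul]
  group

/-- The sign cocycle. -/
noncomputable def sgn (g : G) (y : G ⧸ addZ H z hz hzz) : ℝ := eps H (loc g y)

theorem sgn_mul (g h : G) (y : G ⧸ addZ H z hz hzz) :
    sgn (g * h) y = sgn g (h • y) * sgn h y := by
  unfold sgn
  rw [loc_mul, eps_mul (loc_mem _ _) (loc_mem _ _)]

theorem sgn_one (y : G ⧸ addZ H z hz hzz) : sgn 1 y = 1 := by
  unfold sgn loc
  rw [one_smul, mul_one, inv_mul_cancel]
  exact eps_mem H.one_mem

theorem abs_sgn (g : G) (y : G ⧸ addZ H z hz hzz) : |sgn g y| = 1 := abs_eps _ _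

theorem z_smul (y : G ⧸ addZ H z hz hzz) : z • y = y := by
  induction y using QuotientGroup.induction_on with
  | H a =>
    have e1 : z • (a : G ⧸ addZ H z hz hzz) = ((z * a : G) : G ⧸ addZ H z hz hzz) := rfl
    rw [e1, QuotientGroup.eq, mem_addZ]
    right
    have e2 : z * ((z * a)⁻¹ * a) = 1 := by
      rw [mul_inv_rev, mul_assoc, ← hz, mul_assoc, mul_assoc, hz a]
      group
    rw [e2]
    exact H.one_mem

theorem sgn_z (hzH : z ∉ H) (y : G ⧸ addZ H z hz hzz) : sgn z y = -1 := by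
  unfold sgn
  refine eps_not ?_
  unfold loc
  rw [z_smul, mul_assoc, ← hz, inv_mul_cancel_left]
  exact hzH

theorem smul_of_mem {g : G} {y : G ⧸ addZ H z hz hzz}
    (h : (Quotient.out y)⁻¹ * g * Quotient.out y ∈ H) : g • y = y := by
  have h1 : ((Quotient.out y : G) : G ⧸ addZ H z hz hzz) =
      ((g * Quotient.out y : G) : G ⧸ addZ H z hz hzz) := by
    rw [QuotientGroup.eq, ← mul_assoc]
    exact Or.inl h
  have h2 : ((g * Quotient.out y : G) : G ⧸ addZ H z hz hzz) =
    g • ((Quotient.out y : G) : G ⧸ addZ H z hz hzz) := rfl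
  rw [h2, QuotientGroup.out_eq'] at h1
  exact h1.symm

theorem sgn_of_mem {g : G} {y : G ⧸ addZ H z hz hzz}
    (h : (Quotient.out y)⁻¹ * g * Quotient.out y ∈ H) : sgn g y = 1 := by
  unfold sgn
  refine eps_mem ?_
  unfold loc
  rw [smul_of_mem h]
  exact h

variable (c : Chain (addZ H z hz hzz))

/-- The action on the points. -/
noncomputable def act (g : G) : (c.I →₀ ℝ) →ₗ[ℝ] (c.I →₀ ℝ) :=
  Finsupp.linearCombination ℝ fun i => Finsupp.single (g • i.1, i.2) (sgn g i.1)

theorem act_single (g : G) (i : c.I) (r : ℝ) :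
    act c g (Finsupp.single i r) = r • Finsupp.single (g • i.1, i.2) (sgn g i.1) := by
  unfold act
  rw [Finsupp.linearCombination_single]

theorem act_mul (g h : G) (a : c.I →₀ ℝ) : act c (g * h) a = act c g (act c h a) := by
  induction a using Finsupp.induction_linear with
  | zero => simp only [map_zero]
  | add a b ha hb => simp only [map_add, ha, hb]
  | single i r =>
    rw [act_single, act_single, map_smul, act_single, sgn_mul, mul_smul, Finsupp.smul_single,
      Finsupp.smul_single, Finsupp.smul_single]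
    congr 1
    simp only [smul_eq_mul]
    ring

theorem act_one (a : c.I →₀ ℝ) : act c 1 a = a := by
  induction a using Finsupp.induction_linear with
  | zero => simp only [map_zero]
  | add a b ha hb => simp only [map_add, ha, hb]
  | single i r =>
    rw [act_single, sgn_one, one_smul, Finsupp.smul_single, smul_eq_mul, mul_one]

theorem act_z (hzH : z ∉ H) (a : c.I →₀ ℝ) : act c z a = -a := by
  induction a using Finsupp.induction_linear with
  | zero => simp only [map_zero, neg_zero]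
  | add a b ha hb => simp only [map_add, ha, hb, neg_add]
  | single i r =>
    rw [act_single, sgn_z hzH, z_smul, Finsupp.smul_single, smul_eq_mul, mul_neg, mul_one,
      Finsupp.single_neg]

theorem act_apply (g : G) (a : c.I →₀ ℝ) (i : c.I) :
    act c g a i = sgn g (g⁻¹ • i.1) * a (g⁻¹ • i.1, i.2) := by
  classical
  induction a using Finsupp.induction_linear with
  | zero => simp only [map_zero, Finsupp.coe_zero, Pi.zero_apply, mul_zero]
  | add a b ha hb => simp only [map_add, Finsupp.add_apply, ha, hb, mul_add]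
  | single j r =>
    rw [act_single, Finsupp.smul_apply, Finsupp.single_apply, Finsupp.single_apply]
    by_cases h : (g • j.1, j.2) = i
    · have h' : j = (g⁻¹ • i.1, i.2) := by
        rw [← h]
        simp only [inv_smul_smul, Prod.mk.eta]
      rw [if_pos h, if_pos h', ← h]
      simp only [inv_smul_smul, smul_eq_mul]
      ring
    · have h' : j ≠ (g⁻¹ • i.1, i.2) := by
        intro h2
        refine h ?_
        rw [h2]
        simp only [smul_inv_smul, Prod.mk.eta]
      rw [if_neg h, if_neg h', smul_zero, mul_zero]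

theorem abs_act (g : G) (a : c.I →₀ ℝ) (i : c.I) :
    |act c g a i| = |a (g⁻¹ • i.1, i.2)| := by
  rw [act_apply, abs_mul, abs_sgn, one_mul]

theorem sum_act_le (g : G) (a : c.I →₀ ℝ) (B : ℝ)
    (h : ∀ S, c.Adm S → ∑ i ∈ S, |a i| ≤ B) (S : Finset c.I) (hS : c.Adm S) :
    ∑ i ∈ S, |act c g a i| ≤ B := by
  classical
  refine le_trans (le_of_eq ?_) (h _ (hS.smul g⁻¹))
  rw [sum_image]
  · exact sum_congr rfl fun i _ => abs_act c g a i
  · intro i _ i' _ hii
    rw [Prod.mk.injEq] at hii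
    exact Prod.ext (MulAction.injective _ hii.1) hii.2

/-- The operators on the finite sequences. -/
noncomputable def opA (g : G) : (ℕ →₀ ℝ) →ₗ[ℝ] (ℕ →₀ ℝ) :=
  c.sys.Lm ∘ₗ c.rI.toLinearMap ∘ₗ act c g ∘ₗ c.rI.symm.toLinearMap ∘ₗ c.sys.Mv

theorem opA_apply (g : G) (x : ℕ →₀ ℝ) :
    opA c g x = c.sys.Lm (c.rI (act c g (c.rI.symm (c.sys.Mv x)))) := rfl

theorem opA_one (x : ℕ →₀ ℝ) : opA c 1 x = x := by
  rw [opA_apply, act_one, LinearEquiv.apply_symm_apply, Sys.Lm_Mv]

theorem opA_mul (g h : G) (x : ℕ →₀ ℝ) : opA c (g * h) x = opA c g (opA c h x) := by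
  rw [opA_apply, opA_apply, opA_apply, Sys.Mv_Lm, LinearEquiv.symm_apply_apply, act_mul]

theorem opA_z (hzH : z ∉ H) (x : ℕ →₀ ℝ) : opA c z x = -x := by
  rw [opA_apply, act_z c hzH, map_neg, map_neg, LinearEquiv.apply_symm_apply, Sys.Lm_Mv]

theorem opA_bound (g : G) (x : ℕ →₀ ℝ) :
    combNorm unF (opA c g x) ≤ 42 * combNorm unF x := by
  have h := c.bound_map (act c g (c.rI.symm (c.sys.Mv x))) (6 * combNorm unF x)
    (sum_act_le c g _ _ fun S hS => c.bound_adm x hS)
  rw [opA_apply]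
  linarith

/-- The finite sequences are fixed by open subgroups. -/
theorem opA_fix (x : ℕ →₀ ℝ) : ∃ R : Finset G, ∀ g, (∀ r ∈ R, r⁻¹ * g * r ∈ H) →
    opA c g x = x := by
  classical
  refine ⟨(c.rI.symm (c.sys.Mv x)).support.image fun i => Quotient.out i.1, fun g hg => ?_⟩
  have h1 : act c g (c.rI.symm (c.sys.Mv x)) = c.rI.symm (c.sys.Mv x) := by
    set a := c.rI.symm (c.sys.Mv x) with ha
    have h2 : ∀ i ∈ a.support, (g • i.1, i.2) = i ∧ sgn g i.1 = 1 := by
      intro i hi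
      have h3 := hg _ (mem_image_of_mem _ hi)
      refine ⟨?_, sgn_of_mem h3⟩
      rw [smul_of_mem h3]
    unfold act
    rw [Finsupp.linearCombination_apply, Finsupp.sum]
    conv_rhs => rw [← Finsupp.sum_single a, Finsupp.sum]
    refine sum_congr rfl fun i hi => ?_
    rw [(h2 i hi).1, (h2 i hi).2, Finsupp.smul_single, smul_eq_mul, mul_one]
  rw [opA_apply, h1, LinearEquiv.apply_symm_apply, Sys.Lm_Mv]

end Cocycle

/-! ### The representation on the space -/

section Rep

variable {X : Type*} [NormedAddCommGroup X] [NormedSpace ℝ X] [CompleteSpace X] {e : ℕ → X}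

/-- Extension of a bounded action on the finite sequences. -/
theorem exists_ext_rep {G : Type*} [Group G] {𝓕 : Set (Finset ℕ)} (hX : IsCombSpace 𝓕 e)
    (A : G → (ℕ →₀ ℝ) →ₗ[ℝ] (ℕ →₀ ℝ)) (C : ℝ) (hA1 : ∀ x, A 1 x = x)
    (hAm : ∀ g h x, A (g * h) x = A g (A h x))
    (hC : ∀ g x, combNorm 𝓕 (A g x) ≤ C * combNorm 𝓕 x) :
    ∃ π : G →* (X →ₗ[ℝ] X), (∀ g x, ‖π g x‖ ≤ C * ‖x‖) ∧
      ∀ g a, π g (Finsupp.linearCombination ℝ e a) = Finsupp.linearCombination ℝ e (A g a) := by
  have key := fun g => XPart.exists_ext hX hX (A g) C (hC g)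
  choose T hT hTn using key
  have h1 : ∀ x, T 1 x = x := by
    intro x
    refine hX.dense.induction_on x (isClosed_eq (T 1).continuous continuous_id) fun a => ?_
    rw [hT, hA1]
  have h2 : ∀ g h x, T (g * h) x = T g (T h x) := by
    intro g h x
    refine hX.dense.induction_on x (isClosed_eq (T _).continuous
      ((T g).continuous.comp (T h).continuous)) fun a => ?_
    rw [hT, hT, hT, hAm]
  exact ⟨{ toFun := fun g => (T g : X →ₗ[ℝ] X)
           map_one' := LinearMap.ext h1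
           map_mul' := fun g h => LinearMap.ext (h2 g h) }, hTn, hT⟩

open Pointwise in
/-- The odd representation. -/
theorem exists_odd_rep (hX : IsCombSpace unF e) (G : Subgroup (Equiv.Perm ℕ)) (z : G)
    (hz : ∀ g, g * z = z * g) (hzz : z * z = 1) (H : Subgroup G) (F0 : Finset ℕ)
    (hF0 : ∀ g : G, (∀ n ∈ F0, (g : Equiv.Perm ℕ) n = n) → g ∈ H) (hzH : z ∉ H)
    (K : ℕ → Subgroup G) (hK : Monotone K) (hHK : ∀ n, H ≤ K n)
    (hfin : ∀ n, H.relIndex (K n) ≠ 0) (hU : ∀ g, ∃ n, g ∈ K n) :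
    ∃ π : G →* (X →ₗ[ℝ] X), (∀ g x, ‖π g x‖ ≤ 42 * ‖x‖) ∧
      (∀ x, ∀ ε > 0, ∃ F : Finset ℕ, ∀ g : G, (∀ n ∈ F, (g : Equiv.Perm ℕ) n = n) →
        ‖π g x - x‖ < ε) ∧ ∀ x, π z x = -x := by
  classical
  obtain ⟨n0, hn0⟩ := hU z
  have hle : ∀ n, addZ H z hz hzz ≤ K (n + n0) := by
    intro n g hg
    rcases hg with hg | hg
    · exact hHK _ hg
    · have h1 : z ∈ K (n + n0) := hK (Nat.le_add_left _ _) hn0
      have h2 : g = z * (z * g) := by rw [← mul_assoc, hzz, one_mul]
      rw [h2]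
      exact (K (n + n0)).mul_mem h1 (hHK _ hg)
  have hH0 : H ≤ addZ H z hz hzz := fun g hg => Or.inl hg
  obtain ⟨c⟩ := exists_chain (addZ H z hz hzz) (fun n => K (n + n0))
    (fun m n hmn => hK (Nat.add_le_add_right hmn _)) hle
    (fun n h0 => hfin (n + n0) (by
      have h1 := Subgroup.relIndex_dvd_of_le_left (K (n + n0)) hH0
      rw [h0] at h1
      exact Nat.eq_zero_of_zero_dvd h1))
    (fun g => by
      obtain ⟨n, hn⟩ := hU g
      exact ⟨n, hK (Nat.le_add_right _ _) hn⟩)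
  obtain ⟨π, hπ, hπa⟩ := exists_ext_rep (X := X) (e := e) hX (opA c) 42 (opA_one c) (opA_mul c)
    (opA_bound c)
  have hcont : ∀ g, Continuous (π g) := fun g =>
    AddMonoidHomClass.continuous_of_bound (π g) 42 (hπ g)
  refine ⟨π, hπ, fun x ε hε => ?_, fun x => ?_⟩
  · obtain ⟨a, ha⟩ := hX.dense.exists_dist_lt x (ε := ε / 43) (by positivity)
    set y := Finsupp.linearCombination ℝ e a with hy
    obtain ⟨R, hR⟩ := opA_fix c a
    refine ⟨R.biUnion fun r => F0.image fun n => (r : Equiv.Perm ℕ) n, fun g hg => ?_⟩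
    have h1 : π g y = y := by
      rw [hy, hπa, hR g fun r hr => hF0 _ fun n hn => ?_]
      have h2 := hg ((r : Equiv.Perm ℕ) n) (mem_biUnion.2 ⟨r, hr, mem_image_of_mem _ hn⟩)
      show (r : Equiv.Perm ℕ)⁻¹ ((g : Equiv.Perm ℕ) ((r : Equiv.Perm ℕ) n)) = n
      rw [h2]
      exact Equiv.symm_apply_apply (r : Equiv.Perm ℕ) n
    rw [dist_eq_norm] at ha
    have h3 : π g x - x = π g (x - y) - (x - y) := by
      rw [map_sub, h1]
      abel
    rw [h3]
    calc ‖π g (x - y) - (x - y)‖ ≤ ‖π g (x - y)‖ + ‖x - y‖ := norm_sub_le _ _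
      _ ≤ 42 * ‖x - y‖ + ‖x - y‖ := add_le_add_left (hπ _ _) _
      _ = 43 * ‖x - y‖ := by ring
      _ < 43 * (ε / 43) := by linarith
      _ = ε := by ring
  · refine hX.dense.induction_on x (isClosed_eq (hcont z) continuous_neg) fun a => ?_
    rw [hπa, opA_z c hzH, map_neg]

/-- The displays. -/
theorem displayable (hX : IsCombSpace unF e) (G : Subgroup (Equiv.Perm ℕ))
    (hG : IsClosedPerm G) (z : G)
    (hz : ∀ g, g * z = z * g) (hzz : z * z = 1) (H : Subgroup G) (F0 : Finset ℕ)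
    (hF0 : ∀ g : G, (∀ n ∈ F0, (g : Equiv.Perm ℕ) n = n) → g ∈ H) (hzH : z ∉ H)
    (K : ℕ → Subgroup G) (hK : Monotone K) (hHK : ∀ n, H ≤ K n)
    (hfin : ∀ n, H.relIndex (K n) ≠ 0) (hU : ∀ g, ∃ n, g ∈ K n) :
    ∃ N : Seminorm ℝ X, (∃ c C : ℝ, 0 < c ∧ ∀ x, c * ‖x‖ ≤ N x ∧ N x ≤ C * ‖x‖) ∧
      ∃ Φ : G ≃* isomGroup N,
        (∀ x, ∀ ε > 0, ∃ F : Finset ℕ, ∀ g : G, (∀ n ∈ F, (g : Equiv.Perm ℕ) n = n) →
          N ((Φ g : X ≃ₗ[ℝ] X) x - x) < ε) ∧
        (∀ n, ∃ x, ∃ ε > 0, ∀ g : G, N ((Φ g : X ≃ₗ[ℝ] X) x - x) < ε →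
          (g : Equiv.Perm ℕ) n = n) := by
  obtain ⟨π, hπ, hc, hπz⟩ := exists_odd_rep hX G z hz hzz H F0 hF0 hzH K hK hHK hfin hU
  exact LPart.main_lin unF_regular hX G hG z hz hzz π 42 hπ hc hπz

end Rep

end Pool.Agent.Comb7f333f.UPart
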