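import Pool.Agent.Lib.MP_7f333f_an.Un.UDefs
import Pool.Agent.Lib.MP_7f333f_an.Blocks

set_option autoImplicit false

/-!
The averages over the blocks and the sums over the blocks.
-/

namespace Pool.Agent.Comb7f333f.UPart

open Finset
open Nat (pair unpair)

/-- A dominated set covers only a small part of the inactive blocks. -/
theorem capture {c : ℕ} {E A : Finset ℕ} (h : Dom c E A) (n : ℕ) :
    (A ∩ blk n).card ≤ st n + if (∃ R ∈ E, pair c R = n) then ln n else 0 := by
  classical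
  obtain ⟨φ, h1, h2⟩ := h
  set A1 := (A ∩ blk n).filter (fun a => bi (φ a) < n) with hA1
  set A2 := (A ∩ blk n).filter (fun a => ¬ bi (φ a) < n) with hA2
  have hsplit : (A ∩ blk n).card = A1.card + A2.card :=
    (card_filter_add_card_filter_not _).symm
  have hA1c : A1.card ≤ st n := by
    have e1 : A1.card ≤ (range (st n)).card := by
      refine card_le_card_of_injOn φ (fun a ha => ?_) (h1.mono fun a ha => ?_)
      · have ha' := Finset.mem_coe.1 ha
        simp only [hA1, mem_filter] at ha'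
        exact Finset.mem_coe.2 (mem_range.2 (lt_st_of_bi_lt ha'.2))
      · have ha' := Finset.mem_coe.1 ha
        simp only [hA1, mem_filter, mem_inter] at ha'
        exact Finset.mem_coe.2 ha'.1.1
    rwa [card_range] at e1
  have hA2c : A2.card ≤ if (∃ R ∈ E, pair c R = n) then ln n else 0 := by
    rcases A2.eq_empty_or_nonempty with he | ⟨a, ha⟩
    · rw [he, card_empty]
      exact Nat.zero_le _
    · have hact : ∃ R ∈ E, pair c R = n := by
        simp only [hA2, mem_filter, mem_inter, not_lt] at ha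
        obtain ⟨e1, R, hR, e2⟩ := h2 a ha.1.1
        refine ⟨R, hR, ?_⟩
        have e3 := bi_eq_iff.2 ha.1.2
        omega
      rw [if_pos hact, ← card_blk n]
      refine card_le_card fun a ha => ?_
      simp only [hA2, mem_filter, mem_inter] at ha
      exact ha.1.2
  omega

/-- The average over a block. -/
noncomputable def uv (n : ℕ) : ℕ →₀ ℝ :=
  Finsupp.onFinset (blk n) (fun k => if k ∈ blk n then (ln n : ℝ)⁻¹ else 0) (by
    intro k hk
    by_contra h
    exact hk (if_neg h))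

theorem uv_apply (n k : ℕ) : uv n k = if k ∈ blk n then (ln n : ℝ)⁻¹ else 0 := rfl

theorem ln_pos' (n : ℕ) : (0 : ℝ) < ln n := by exact_mod_cast ln_pos n

/-- The sum over a set of the absolute values of an average. -/
theorem sum_abs_uv (A : Finset ℕ) (n : ℕ) :
    ∑ k ∈ A, |uv n k| = ((A ∩ blk n).card : ℝ) * (ln n : ℝ)⁻¹ := by
  have h1 : ∀ k ∈ A, |uv n k| = if k ∈ blk n then (ln n : ℝ)⁻¹ else 0 := by
    intro k _
    rw [uv_apply]
    split_ifs
    · exact abs_of_pos (inv_pos.mpr (ln_pos' n))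
    · exact abs_zero
  rw [sum_congr rfl h1, ← sum_filter, sum_const, nsmul_eq_mul, filter_mem_eq_inter]

theorem st_mul_inv_ln (n : ℕ) : ((st n : ℝ) + 1) * (ln n : ℝ)⁻¹ ≤ (1 / 2) ^ (n + 2) := by
  have h1 : (0 : ℝ) < (st n : ℝ) + 1 := by positivity
  have h2 : (1 : ℝ) ≤ ((n + 1).factorial : ℝ) := by
    exact_mod_cast Nat.succ_le_of_lt (Nat.factorial_pos (n + 1))
  have h3 := ln_pos' n
  rw [← div_eq_mul_inv, div_le_iff₀ h3]
  have h4 : (ln n : ℝ) = ((n + 1).factorial : ℝ) * 2 ^ (n + 2) * ((st n : ℝ) + 1) := by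
    unfold ln
    push_cast
    ring
  rw [h4]
  have h5 : ((1 : ℝ) / 2) ^ (n + 2) * (((n + 1).factorial : ℝ) * 2 ^ (n + 2) * ((st n : ℝ) + 1)) =
      ((n + 1).factorial : ℝ) * ((st n : ℝ) + 1) := by
    rw [one_div, inv_pow]
    field_simp
  rw [h5]
  nlinarith

/-- The combinations of the averages over the blocks. -/
noncomputable def bsum : (ℕ →₀ ℝ) →ₗ[ℝ] (ℕ →₀ ℝ) := Finsupp.linearCombination ℝ uv

theorem bsum_single (n : ℕ) (r : ℝ) : bsum (Finsupp.single n r) = r • uv n := by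
  unfold bsum
  rw [Finsupp.linearCombination_single]

/-- The norms of the combinations of the averages over the blocks. -/
theorem combNorm_bsum (g : ℕ →₀ ℝ) (S : ℝ) (hS0 : 0 ≤ S)
    (hS : ∀ n, |g n| ≤ S)
    (hD : ∀ c, ∀ E ∈ D c, ∑ R ∈ E, |g (pair c R)| ≤ S) : combNorm unF (bsum g) ≤ 2 * S := by
  classical
  refine combNorm_le _ (by positivity) fun A hA => ?_
  -- the coordinates
  have hval : ∀ k, |bsum g k| ≤ ∑ n ∈ g.support, |g n| * |uv n k| := by
    intro k
    have h1 : bsum g k = ∑ n ∈ g.support, g n * uv n k := by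
      unfold bsum
      rw [Finsupp.linearCombination_apply, Finsupp.sum, Finsupp.finsetSum_apply]
      exact sum_congr rfl fun n _ => by rw [Finsupp.smul_apply, smul_eq_mul]
    rw [h1]
    refine (abs_sum_le_sum_abs _ _).trans (le_of_eq (sum_congr rfl fun n _ => abs_mul _ _))
  have hsum : ∑ k ∈ A, |bsum g k| ≤
      ∑ n ∈ g.support, |g n| * (((A ∩ blk n).card : ℝ) * (ln n : ℝ)⁻¹) := by
    refine (sum_le_sum fun k _ => hval k).trans (le_of_eq ?_)
    rw [sum_comm]
    refine sum_congr rfl fun n _ => ?_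
    rw [← mul_sum, sum_abs_uv]
  refine hsum.trans ?_
  -- the small parts
  have hsmall : ∑ n ∈ g.support, |g n| * ((1 / 2 : ℝ) ^ (n + 2)) ≤ S := by
    have h1 : ∀ n ∈ g.support, |g n| * ((1 / 2 : ℝ) ^ (n + 2)) ≤ S * (1 / 2 : ℝ) ^ (n + 1) := by
      intro n _
      have h2 : (0 : ℝ) < (1 / 2) ^ (n + 1) := by positivity
      have h3 : ((1 : ℝ) / 2) ^ (n + 2) ≤ (1 / 2) ^ (n + 1) := by
        rw [pow_succ _ (n + 1)]
        linarith
      exact mul_le_mul (hS n) h3 (by positivity) hS0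
    refine (sum_le_sum h1).trans ?_
    rw [← mul_sum]
    exact mul_le_of_le_one_right hS0 (sum_half_pow_le _)
  rcases hA with h | ⟨c, E, hE, hdom⟩
  · have h1 : ∀ n ∈ g.support, |g n| * (((A ∩ blk n).card : ℝ) * (ln n : ℝ)⁻¹) ≤
        |g n| * ((1 / 2 : ℝ) ^ (n + 2)) := by
      intro n _
      have h3 : (0 : ℝ) < (ln n : ℝ)⁻¹ := inv_pos.mpr (ln_pos' n)
      have h2 : (A ∩ blk n).card ≤ st n + 1 := by
        have e1 := card_le_card (inter_subset_left (s₁ := A) (s₂ := blk n))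
        omega
      have h4 : ((A ∩ blk n).card : ℝ) ≤ (st n : ℝ) + 1 := by exact_mod_cast h2
      have h5 := (mul_le_mul_of_nonneg_right h4 h3.le).trans (st_mul_inv_ln n)
      exact mul_le_mul_of_nonneg_left h5 (abs_nonneg _)
    have h2 := (sum_le_sum h1).trans hsmall
    linarith
  · have h1 : ∀ n ∈ g.support, |g n| * (((A ∩ blk n).card : ℝ) * (ln n : ℝ)⁻¹) ≤
        |g n| * ((1 / 2 : ℝ) ^ (n + 2)) + if n ∈ E.image (pair c) then |g n| else 0 := by
      intro n _
      have h2 := capture hdom n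
      have h3 : (0 : ℝ) < (ln n : ℝ)⁻¹ := inv_pos.mpr (ln_pos' n)
      have hst : (st n : ℝ) * (ln n : ℝ)⁻¹ ≤ (1 / 2 : ℝ) ^ (n + 2) := by
        refine le_trans ?_ (st_mul_inv_ln n)
        exact mul_le_mul_of_nonneg_right (by linarith) h3.le
      have hmem : n ∈ E.image (pair c) ↔ ∃ R ∈ E, pair c R = n := mem_image
      by_cases hact : ∃ R ∈ E, pair c R = n
      · rw [if_pos hact] at h2
        rw [if_pos (hmem.2 hact)]
        have h4 : ((A ∩ blk n).card : ℝ) ≤ st n + ln n := by exact_mod_cast h2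
        have h5 : ((A ∩ blk n).card : ℝ) * (ln n : ℝ)⁻¹ ≤ (1 / 2 : ℝ) ^ (n + 2) + 1 := by
          have h6 := mul_le_mul_of_nonneg_right h4 h3.le
          rw [add_mul, mul_inv_cancel₀ (ln_pos' n).ne'] at h6
          linarith
        calc |g n| * (((A ∩ blk n).card : ℝ) * (ln n : ℝ)⁻¹) ≤
            |g n| * ((1 / 2 : ℝ) ^ (n + 2) + 1) := mul_le_mul_of_nonneg_left h5 (abs_nonneg _)
          _ = _ := by ring
      · rw [if_neg hact] at h2
        rw [if_neg (fun h => hact (hmem.1 h)), add_zero]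
        have h4 : ((A ∩ blk n).card : ℝ) ≤ st n := by exact_mod_cast h2
        have h5 := (mul_le_mul_of_nonneg_right h4 h3.le).trans hst
        exact mul_le_mul_of_nonneg_left h5 (abs_nonneg _)
    refine (sum_le_sum h1).trans ?_
    rw [sum_add_distrib]
    have h2 : ∑ n ∈ g.support, (if n ∈ E.image (pair c) then |g n| else 0) ≤ S := by
      rw [← sum_filter]
      refine le_trans (sum_le_sum_of_subset_of_nonneg (t := E.image (pair c)) (fun n hn =>
        (mem_filter.1 hn).2) fun _ _ _ => abs_nonneg _) ?_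
      rw [sum_image (fun R _ R' _ h => (Nat.pair_eq_pair.1 h).2)]
      exact hD c E hE
    linarith

/-- The sums over the blocks. -/
noncomputable def dn : (ℕ →₀ ℝ) →ₗ[ℝ] (ℕ →₀ ℝ) := Finsupp.lmapDomain ℝ ℝ bi

theorem dn_single (k : ℕ) (r : ℝ) : dn (Finsupp.single k r) = Finsupp.single (bi k) r :=
  Finsupp.mapDomain_single

theorem abs_dn_le (a : ℕ →₀ ℝ) (n : ℕ) : |dn a n| ≤ ∑ k ∈ blk n, |a k| := by
  classical
  have h1 : dn a n = ∑ k ∈ a.support, if bi k = n then a k else 0 := by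
    show Finsupp.mapDomain bi a n = _
    rw [Finsupp.mapDomain, Finsupp.sum, Finsupp.finsetSum_apply]
    exact sum_congr rfl fun k _ => Finsupp.single_apply
  rw [h1, ← sum_filter]
  refine (abs_sum_le_sum_abs _ _).trans ?_
  refine sum_le_sum_of_subset_of_nonneg (fun k hk => ?_) fun _ _ _ => abs_nonneg _
  exact bi_eq_iff.1 (mem_filter.1 hk).2

theorem dn_uv (n : ℕ) : dn (uv n) = Finsupp.single n 1 := by
  classical
  have h1 : uv n = ∑ k ∈ blk n, Finsupp.single k (ln n : ℝ)⁻¹ := by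
    ext k
    rw [uv_apply, Finsupp.finsetSum_apply]
    simp only [Finsupp.single_apply]
    rw [sum_ite_eq']
  rw [h1, map_sum]
  have h2 : ∀ k ∈ blk n, dn (Finsupp.single k (ln n : ℝ)⁻¹) =
      Finsupp.single n (ln n : ℝ)⁻¹ := by
    intro k hk
    rw [dn_single, bi_eq_iff.2 hk]
  rw [sum_congr rfl h2, sum_const, card_blk, Finsupp.smul_single, nsmul_eq_mul,
    mul_inv_cancel₀ (ln_pos' n).ne']

theorem dn_bsum (g : ℕ →₀ ℝ) : dn (bsum g) = g := by
  have h1 : dn.comp bsum = LinearMap.id := by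
    refine Finsupp.lhom_ext' fun n => LinearMap.ext_ring ?_
    show dn (bsum (Finsupp.single n 1)) = Finsupp.single n 1
    rw [bsum_single, one_smul, dn_uv]
  exact congrArg (fun L : (ℕ →₀ ℝ) →ₗ[ℝ] (ℕ →₀ ℝ) => L g) h1

/-- The sums over the blocks of a set of the complex. -/
theorem sum_dn_le (a : ℕ →₀ ℝ) {c : ℕ} {E : Finset ℕ} (hE : E ∈ D c) :
    ∑ R ∈ E, |dn a (pair c R)| ≤ combNorm unF a := by
  classical
  refine le_trans ?_ (le_combNorm a (unF_blocks hE))
  rw [sum_biUnion]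
  · exact sum_le_sum fun R _ => abs_dn_le a _
  · intro R _ R' _ hRR'
    rw [Function.onFun, disjoint_left]
    intro k hk hk'
    exact hRR' (Nat.pair_eq_pair.1 (blk_inj hk hk')).2

open Classical in
/-- An injection on some of the blocks which preserves the complexes gives a bounded operator. -/
theorem combNorm_op (𝔹 : Set ℕ) (σ : ℕ → ℕ) (hσ : Set.InjOn σ 𝔹)
    (h𝔹 : ∀ b ∈ 𝔹, blk b ∈ unF)
    (hcol : ∀ c, ∃ c', (∀ E ∈ D c, E ∈ D c') ∧ ∀ b ∈ 𝔹, ∀ R, σ b = pair c R → b = pair c' R)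
    (a : ℕ →₀ ℝ) :
    combNorm unF (bsum (Finsupp.mapDomain σ (Finsupp.filter (· ∈ 𝔹) (dn a)))) ≤
      2 * combNorm unF a := by
  classical
  set g := Finsupp.mapDomain σ (Finsupp.filter (· ∈ 𝔹) (dn a)) with hg
  have hga : ∀ m, g m = ∑ b ∈ (dn a).support.filter (fun b => b ∈ 𝔹 ∧ σ b = m), dn a b := by
    intro m
    rw [hg, Finsupp.mapDomain, Finsupp.sum, Finsupp.finsetSum_apply]
    simp only [Finsupp.single_apply]
    rw [Finsupp.support_filter, sum_filter, sum_filter]
    refine sum_congr rfl fun b _ => ?_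
    by_cases h1 : b ∈ 𝔹
    · rw [if_pos h1, Finsupp.filter_apply_pos _ _ h1]
      by_cases h2 : σ b = m
      · rw [if_pos h2, if_pos ⟨h1, h2⟩]
      · rw [if_neg h2, if_neg fun h => h2 h.2]
    · rw [if_neg h1, if_neg fun h => h1 h.1]
  have hgb : ∀ b ∈ 𝔹, g (σ b) = dn a b := by
    intro b hb
    rw [hga]
    by_cases h0 : b ∈ (dn a).support
    · have h1 : (dn a).support.filter (fun b' => b' ∈ 𝔹 ∧ σ b' = σ b) = {b} := by
        ext b'
        rw [mem_filter, mem_singleton]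
        constructor
        · rintro ⟨-, h2, h3⟩
          exact hσ h2 hb h3
        · rintro rfl
          exact ⟨h0, hb, rfl⟩
      rw [h1, sum_singleton]
    · rw [Finsupp.notMem_support_iff.1 h0]
      refine sum_eq_zero fun b' hb' => ?_
      obtain ⟨-, h2, h3⟩ := mem_filter.1 hb'
      rw [hσ h2 hb h3]
      exact Finsupp.notMem_support_iff.1 h0
  have hg0 : ∀ m, (¬ ∃ b ∈ 𝔹, σ b = m) → g m = 0 := by
    intro m hm
    rw [hga]
    refine sum_eq_zero fun b hb => ?_
    exact absurd ⟨b, (mem_filter.1 hb).2.1, (mem_filter.1 hb).2.2⟩ hm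
  have h0 := combNorm_nonneg unF a
  refine combNorm_bsum g _ h0 (fun m => ?_) fun c E hE => ?_
  · by_cases hm : ∃ b ∈ 𝔹, σ b = m
    · obtain ⟨b, hb, rfl⟩ := hm
      rw [hgb b hb]
      exact (abs_dn_le a b).trans (le_combNorm a (h𝔹 b hb))
    · rw [hg0 m hm, abs_zero]
      exact h0
  · obtain ⟨c', h1, h2⟩ := hcol c
    refine le_trans (sum_le_sum fun R _ => ?_) (sum_dn_le a (h1 E hE))
    by_cases hm : ∃ b ∈ 𝔹, σ b = pair c R
    · obtain ⟨b, hb, hb'⟩ := hm
      rw [← hb', hgb b hb, h2 b hb R hb']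
    · rw [hg0 _ hm, abs_zero]
      exact abs_nonneg _

end Pool.Agent.Comb7f333f.UPart
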