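import Pool.Agent.Lib.MP_7f333f_an.Tame.SchReg
import Pool.Agent.Lib.MP_7f333f_an.Neg.Seq

set_option autoImplicit false

/-!
A regular family in which the sets with a given least element have bounded sizes, and whose
combinatorial space contains complemented copies of the `c₀`-sums of all the sequences of finite
dimensional combinatorial spaces.
-/

namespace Pool.Agent.Comb7f333f.UPart

open Nat (pair unpair)

/-- The starts of the blocks. -/
def st : ℕ → ℕ
  | 0 => 0
  | n + 1 => st n + (n + 1).factorial * 2 ^ (n + 2) * (st n + 1)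

/-- The lengths of the blocks. -/
def ln (n : ℕ) : ℕ := (n + 1).factorial * 2 ^ (n + 2) * (st n + 1)

theorem st_succ (n : ℕ) : st (n + 1) = st n + ln n := rfl

theorem ln_pos (n : ℕ) : 0 < ln n :=
  Nat.mul_pos (Nat.mul_pos (Nat.factorial_pos _) (by positivity)) (Nat.succ_pos _)

theorem st_lt_succ (n : ℕ) : st n < st (n + 1) := by
  rw [st_succ]
  have := ln_pos n
  omega

theorem st_strictMono : StrictMono st := strictMono_nat_of_lt_succ st_lt_succ

theorem lt_ln (n : ℕ) : n < ln n := by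
  have h1 : n < 2 ^ (n + 2) := (Nat.lt_two_pow_self).trans_le
    (Nat.pow_le_pow_right (by norm_num) (by omega))
  have h2 : 1 ≤ (n + 1).factorial := Nat.factorial_pos _
  have h3 : 2 ^ (n + 2) ≤ (n + 1).factorial * 2 ^ (n + 2) := Nat.le_mul_of_pos_left _ h2
  have h4 : (n + 1).factorial * 2 ^ (n + 2) ≤ ln n := Nat.le_mul_of_pos_right _ (Nat.succ_pos _)
  omega

/-- The blocks. -/
def blk (n : ℕ) : Finset ℕ := Finset.Ico (st n) (st (n + 1))

theorem mem_blk {n k : ℕ} : k ∈ blk n ↔ st n ≤ k ∧ k < st (n + 1) := Finset.mem_Ico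

theorem card_blk (n : ℕ) : (blk n).card = ln n := by
  rw [blk, Nat.card_Ico, st_succ]
  omega

theorem exists_lt_st (k : ℕ) : ∃ n, k < st (n + 1) :=
  ⟨k, lt_of_lt_of_le (lt_ln k) (by rw [st_succ]; omega)⟩

/-- The index of the block of a point. -/
def bi (k : ℕ) : ℕ := Nat.find (exists_lt_st k)

theorem mem_blk_bi (k : ℕ) : k ∈ blk (bi k) := by
  rw [mem_blk]
  refine ⟨?_, Nat.find_spec (exists_lt_st k)⟩
  rcases Nat.eq_zero_or_pos (bi k) with h | h
  · rw [h]
    exact Nat.zero_le _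
  · have h1 := Nat.find_min (exists_lt_st k) (m := bi k - 1) (by
      show bi k - 1 < bi k
      omega)
    rw [Nat.sub_add_cancel h] at h1
    omega

theorem blk_inj {m n k : ℕ} (h1 : k ∈ blk m) (h2 : k ∈ blk n) : m = n := by
  rw [mem_blk] at h1 h2
  rcases lt_trichotomy m n with h | h | h
  · have := st_strictMono.monotone (show m + 1 ≤ n from h)
    omega
  · exact h
  · have := st_strictMono.monotone (show n + 1 ≤ m from h)
    omega

theorem bi_eq_iff {k n : ℕ} : bi k = n ↔ k ∈ blk n :=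
  ⟨fun h => h ▸ mem_blk_bi k, fun h => blk_inj (mem_blk_bi k) h⟩

theorem bi_mono {k l : ℕ} (h : k ≤ l) : bi k ≤ bi l := by
  by_contra hcon
  push Not at hcon
  have h1 := mem_blk.1 (mem_blk_bi k)
  have h2 := mem_blk.1 (mem_blk_bi l)
  have h3 := st_strictMono.monotone (show bi l + 1 ≤ bi k from hcon)
  omega

theorem lt_st_of_bi_lt {k n : ℕ} (h : bi k < n) : k < st n := by
  have h1 := mem_blk.1 (mem_blk_bi k)
  have h2 := st_strictMono.monotone (show bi k + 1 ≤ n from h)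
  omega

theorem bi_lt_of_lt_st {k n : ℕ} (h : k < st n) : bi k < n := by
  by_contra hcon
  push Not at hcon
  have h1 := mem_blk.1 (mem_blk_bi k)
  have h2 := st_strictMono.monotone hcon
  omega

/-- The sets of the complex with a given label. -/
def DD (l : ℕ) : Finset (Finset ℕ) :=
  (Encodable.decode (α := Finset (Finset ℕ)) (unpair l).1).getD ∅

/-- The sets of the complex with a given colour. -/
def D (c : ℕ) : Finset (Finset ℕ) := DD (unpair c).1

theorem D_pair (l n : ℕ) : D (pair l n) = DD l := by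
  unfold D
  rw [Nat.unpair_pair]

theorem DD_pair (𝓢 : Finset (Finset ℕ)) (b : ℕ) : DD (pair (Encodable.encode 𝓢) b) = 𝓢 := by
  unfold DD
  rw [Nat.unpair_pair]
  simp

/-- The set `A` is dominated by the union of the blocks of the colour `c` with indices in `E`. -/
def Dom (c : ℕ) (E A : Finset ℕ) : Prop :=
  ∃ φ : ℕ → ℕ, Set.InjOn φ A ∧ ∀ a ∈ A, bi (φ a) ≤ bi a ∧ ∃ R ∈ E, bi (φ a) = pair c R

/-- The family. -/
def unF : Set (Finset ℕ) := {A | A.card ≤ 1 ∨ ∃ c, ∃ E ∈ D c, Dom c E A}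

theorem unF_small {A : Finset ℕ} (h : A.card ≤ 1) : A ∈ unF := Or.inl h

theorem unF_dom {A E : Finset ℕ} {c : ℕ} (hE : E ∈ D c) (h : Dom c E A) : A ∈ unF :=
  Or.inr ⟨c, E, hE, h⟩

theorem dom_subset {c : ℕ} {E A A' : Finset ℕ} (h : Dom c E A) (hA : A' ⊆ A) : Dom c E A' := by
  obtain ⟨φ, h1, h2⟩ := h
  exact ⟨φ, h1.mono (by exact_mod_cast hA), fun a ha => h2 a (hA ha)⟩

theorem dom_image {c : ℕ} {E A : Finset ℕ} (h : Dom c E A) (ψ : ℕ → ℕ)
    (hψ : Set.InjOn ψ A) (hψ' : ∀ s ∈ A, bi s ≤ bi (ψ s)) : Dom c E (A.image ψ) := by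
  classical
  obtain ⟨φ, h1, h2⟩ := h
  have hinv : ∀ s ∈ A, Function.invFunOn ψ A (ψ s) = s := fun s hs =>
    hψ.leftInvOn_invFunOn (Finset.mem_coe.2 hs)
  refine ⟨fun x => φ (Function.invFunOn ψ A x), ?_, ?_⟩
  · intro x hx y hy hxy
    obtain ⟨s, hs, rfl⟩ := Finset.mem_image.1 (Finset.mem_coe.1 hx)
    obtain ⟨t, ht, rfl⟩ := Finset.mem_image.1 (Finset.mem_coe.1 hy)
    simp only [hinv s hs, hinv t ht] at hxy
    rw [h1 (Finset.mem_coe.2 hs) (Finset.mem_coe.2 ht) hxy]
  · intro x hx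
    obtain ⟨s, hs, rfl⟩ := Finset.mem_image.1 hx
    simp only [hinv s hs]
    exact ⟨(h2 s hs).1.trans (hψ' s hs), (h2 s hs).2⟩

theorem unF_hered {A A' : Finset ℕ} (h : A ∈ unF) (hA : A' ⊆ A) : A' ∈ unF := by
  rcases h with h | ⟨c, E, hE, h⟩
  · exact unF_small ((Finset.card_le_card hA).trans h)
  · exact unF_dom hE (dom_subset h hA)

theorem unF_image {A : Finset ℕ} (h : A ∈ unF) (ψ : ℕ → ℕ) (hψ : Set.InjOn ψ A)
    (hψ' : ∀ s ∈ A, bi s ≤ bi (ψ s)) : A.image ψ ∈ unF := by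
  rcases h with h | ⟨c, E, hE, h⟩
  · exact unF_small (Finset.card_image_le.trans h)
  · exact unF_dom hE (dom_image h ψ hψ hψ')

theorem unF_blocks {c : ℕ} {E : Finset ℕ} (hE : E ∈ D c) :
    (E.biUnion fun R => blk (pair c R)) ∈ unF := by
  refine unF_dom hE ⟨id, Function.injective_id.injOn, fun a ha => ⟨le_rfl, ?_⟩⟩
  obtain ⟨R, hR, ha⟩ := Finset.mem_biUnion.1 ha
  exact ⟨R, hR, bi_eq_iff.2 ha⟩

/-- The bound of the sizes. -/
def sz (β : ℕ) : ℕ := 1 + ∑ c ∈ Finset.range (β + 1), ∑ E ∈ D c, ∑ R ∈ E, ln (pair c R)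

theorem card_le_sz {A : Finset ℕ} (h : A ∈ unF) {m : ℕ} (hm : m ∈ A) : A.card ≤ sz (bi m) := by
  classical
  rcases h with h | ⟨c, E, hE, φ, h1, h2⟩
  · exact h.trans (Nat.le_add_right _ _)
  · obtain ⟨h3, R, -, h4⟩ := h2 m hm
    have hc : c ∈ Finset.range (bi m + 1) := by
      rw [Finset.mem_range]
      have := Nat.left_le_pair c R
      omega
    have h5 : A.card ≤ (E.biUnion fun R => blk (pair c R)).card := by
      refine Finset.card_le_card_of_injOn φ (fun a ha => ?_) h1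
      obtain ⟨-, R, hR, h6⟩ := h2 a ha
      exact Finset.mem_coe.2 (Finset.mem_biUnion.2 ⟨R, hR, bi_eq_iff.1 h6⟩)
    have h6 : (E.biUnion fun R => blk (pair c R)).card ≤ ∑ R ∈ E, ln (pair c R) := by
      refine Finset.card_biUnion_le.trans (le_of_eq (Finset.sum_congr rfl fun R _ => card_blk _))
    have h7 : ∑ R ∈ E, ln (pair c R) ≤ ∑ E ∈ D c, ∑ R ∈ E, ln (pair c R) :=
      Finset.single_le_sum (f := fun E => ∑ R ∈ E, ln (pair c R)) (fun _ _ => Nat.zero_le _) hE
    have h8 : ∑ E ∈ D c, ∑ R ∈ E, ln (pair c R) ≤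
        ∑ c ∈ Finset.range (bi m + 1), ∑ E ∈ D c, ∑ R ∈ E, ln (pair c R) :=
      Finset.single_le_sum (f := fun c => ∑ E ∈ D c, ∑ R ∈ E, ln (pair c R))
        (fun _ _ => Nat.zero_le _) hc
    unfold sz
    omega

/-- The colour of a single block. -/
def cb (s : ℕ) : ℕ := pair (pair (Encodable.encode ({{0}} : Finset (Finset ℕ))) 0) s

theorem D_cb (s : ℕ) : D (cb s) = {{0}} := by
  unfold cb
  rw [D_pair, DD_pair]

/-- The far sets of bounded sizes belong to the family. -/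
theorem far_mem (s : ℕ) : ∃ M : ℕ, ∀ A : Finset ℕ, (∀ a ∈ A, M < a) → A.card ≤ s → A ∈ unF := by
  classical
  refine ⟨st (pair (cb s) 0), fun A hA hs => ?_⟩
  have h1 : s ≤ ln (pair (cb s) 0) := by
    have e1 : s ≤ cb s := Nat.right_le_pair _ _
    have e2 : cb s ≤ pair (cb s) 0 := Nat.left_le_pair _ _
    have e3 := lt_ln (pair (cb s) 0)
    omega
  have h2 : A.card ≤ (blk (pair (cb s) 0)).card := by rw [card_blk]; omega
  obtain ⟨f⟩ := Function.Embedding.nonempty_of_card_le (α := A) (β := blk (pair (cb s) 0))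
    (by rw [Fintype.card_coe, Fintype.card_coe]; exact h2)
  refine unF_dom (c := cb s) (E := {0}) (by rw [D_cb]; simp)
    ⟨fun a => if h : a ∈ A then (f ⟨a, h⟩ : ℕ) else 0, ?_, ?_⟩
  · intro a ha b hb hab
    have ha' : a ∈ A := ha
    have hb' : b ∈ A := hb
    simp only [ha', hb', dif_pos] at hab
    have := f.injective (Subtype.ext hab)
    exact congrArg Subtype.val this
  · intro a ha
    simp only [ha, dif_pos]
    have h3 : bi (f ⟨a, ha⟩ : ℕ) = pair (cb s) 0 := bi_eq_iff.2 (f ⟨a, ha⟩).2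
    rw [h3]
    refine ⟨?_, 0, by simp, rfl⟩
    have h4 := hA a ha
    by_contra hcon
    push Not at hcon
    have h5 := lt_st_of_bi_lt hcon
    omega

theorem unF_card (r : ℕ) : ∃ A ∈ unF, r ≤ A.card := by
  obtain ⟨M, hM⟩ := far_mem r
  refine ⟨Finset.Ioc M (M + r), hM _ (fun a ha => (Finset.mem_Ioc.1 ha).1) ?_, ?_⟩
  · rw [Nat.card_Ioc]; omega
  · rw [Nat.card_Ioc]; omega

theorem unF_far : FarUnions unF := by
  classical
  intro m r
  obtain ⟨M, hM⟩ := far_mem (r * sz (bi m))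
  refine ⟨M, fun A hA => hM _ (fun a ha => ?_) ?_⟩
  · obtain ⟨i, -, hi⟩ := Finset.mem_biUnion.1 ha
    exact (hA i).2 a hi
  · refine Finset.card_biUnion_le.trans ?_
    have h1 : ∀ i ∈ (Finset.univ : Finset (Fin r)), (A i).card ≤ sz (bi m) := fun i _ =>
      (Finset.card_le_card (Finset.subset_insert m (A i))).trans
        (card_le_sz (hA i).1 (Finset.mem_insert_self _ _))
    refine (Finset.sum_le_card_nsmul _ _ _ h1).trans ?_
    rw [Finset.card_univ, Fintype.card_fin, smul_eq_mul]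

theorem unF_regular : IsRegular unF := by
  classical
  refine TPart.regular_of (fun F hF F' hF' => unF_hered hF hF') ?_ ?_ ?_
  · intro F hF φ hφ hφ'
    exact unF_image hF φ hφ.injOn fun s hs => bi_mono (hφ' s hs)
  · intro I hI
    obtain ⟨m, hm⟩ := hI.nonempty
    obtain ⟨B, hB1, hB2⟩ := hI.exists_subset_card_eq (sz (bi m) + 1)
    refine ⟨insert m B, ?_, fun hcon => ?_⟩
    · rw [Finset.coe_insert]
      exact Set.insert_subset hm hB1
    · have h1 := card_le_sz hcon (Finset.mem_insert_self m B)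
      have h2 := Finset.card_le_card (Finset.subset_insert m B)
      omega
  · intro n
    exact unF_small (by simp)

end Pool.Agent.Comb7f333f.UPart
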