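import Pool.Agent.Lib.MP_7f333f_an.Un.UExt

set_option autoImplicit false

/-!
The infinite extraspecial `2`-group as a closed group of permutations.
-/

namespace Pool.Agent.Comb7f333f.UPart

open Finset

namespace Ex

/-- An enumeration. -/
noncomputable def enu : Ex ≃ ℕ := (nonempty_equiv_of_countable (α := Ex) (β := ℕ)).some

/-- The regular representation. -/
noncomputable def emb : Ex →* Equiv.Perm ℕ where
  toFun g := (enu.symm.trans (Equiv.mulLeft g)).trans enu
  map_one' := by
    ext n
    show enu (1 * enu.symm n) = n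
    rw [one_mul, Equiv.apply_symm_apply]
  map_mul' g h := by
    ext n
    show enu (g * h * enu.symm n) = enu (g * enu.symm (enu (h * enu.symm n)))
    rw [Equiv.symm_apply_apply, mul_assoc]

theorem emb_apply (g : Ex) (n : ℕ) : emb g n = enu (g * enu.symm n) := rfl

theorem emb_free {g : Ex} {n : ℕ} (h : emb g n = n) : g = 1 := by
  rw [emb_apply] at h
  have h1 : g * enu.symm n = enu.symm n := by
    rw [← Equiv.symm_apply_apply enu (g * enu.symm n), h]
  exact mul_eq_right.1 h1

theorem emb_injective : Function.Injective emb := by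
  rw [injective_iff_map_eq_one]
  intro g hg
  exact emb_free (n := 0) (by rw [hg]; rfl)

/-- The group of permutations. -/
noncomputable def GE : Subgroup (Equiv.Perm ℕ) := emb.range

/-- The isomorphism. -/
noncomputable def iso : Ex ≃* GE := MonoidHom.ofInjective emb_injective

theorem iso_coe (g : Ex) : ((iso g : GE) : Equiv.Perm ℕ) = emb g := rfl

theorem GE_closed : IsClosedPerm GE := by
  intro π hπ
  obtain ⟨g, hg, h0⟩ := hπ {0}
  obtain ⟨a, rfl⟩ := hg
  refine ⟨a, ?_⟩
  ext n
  obtain ⟨g', hg', h1⟩ := hπ {0, n}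
  obtain ⟨b, rfl⟩ := hg'
  have h2 : emb a 0 = emb b 0 := by
    rw [h0 0 (mem_singleton_self 0), h1 0 (mem_insert_self _ _)]
  have h3 : emb (a⁻¹ * b) 0 = 0 := by
    rw [map_mul, map_inv]
    show (emb a)⁻¹ (emb b 0) = 0
    rw [← h2]
    exact Equiv.symm_apply_apply (emb a) 0
  have h4 : a = b := inv_mul_eq_one.1 (emb_free h3)
  rw [h4]
  exact h1 n (by simp)

theorem GE_countable : Countable GE := iso.symm.injective.countable

theorem GE_free {g : GE} {n : ℕ} (h : (g : Equiv.Perm ℕ) n = n) : g = 1 := by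
  obtain ⟨a, rfl⟩ := iso.surjective g
  rw [iso_coe] at h
  rw [emb_free h, map_one]

/-- The group is locally finite. -/
theorem GE_loc (E : Finset GE) :
    (⊥ : Subgroup GE).relIndex (⊥ ⊔ Subgroup.closure (E : Set GE)) ≠ 0 := by
  classical
  rw [bot_sup_eq, Subgroup.relIndex_bot_left]
  have h1 : Subgroup.closure (E : Set GE) =
      (Subgroup.closure ((E.image iso.symm : Finset Ex) : Set Ex)).map iso.toMonoidHom := by
    rw [MonoidHom.map_closure]
    congr 1
    ext g
    constructor
    · intro hg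
      exact ⟨iso.symm g, mem_coe.2 (mem_image_of_mem _ (mem_coe.1 hg)), iso.apply_symm_apply g⟩
    · rintro ⟨a, ha, rfl⟩
      obtain ⟨g', hg', rfl⟩ := mem_image.1 (mem_coe.1 ha)
      show iso (iso.symm g') ∈ E
      rw [iso.apply_symm_apply]
      exact hg'
  have h2 : ((Subgroup.closure ((E.image iso.symm : Finset Ex) : Set Ex) : Subgroup Ex) :
    Set Ex).Finite := Set.finite_coe_iff.1 (finite_closure (E.image iso.symm))
  have h3 : ((Subgroup.closure (E : Set GE) : Subgroup GE) : Set GE).Finite := by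
    rw [h1, Subgroup.coe_map]
    exact h2.image _
  exact Nat.card_ne_zero.2 ⟨⟨1⟩, Set.finite_coe_iff.2 h3⟩

/-- The central involutions. -/
theorem GE_central {w : GE} (hw : ∀ g, g * w = w * g) (h1 : w ≠ 1) : w = iso z := by
  obtain ⟨a, rfl⟩ := iso.surjective w
  congr 1
  refine eq_z_of_central (fun k => ?_) fun h => h1 (by rw [h, map_one])
  apply iso.injective
  rw [map_mul, map_mul, hw]

/-- There are no odd finite-dimensional representations. -/
theorem GE_no_rep {w : GE} (hw : ∀ g, g * w = w * g) {m : ℕ} (hm : 0 < m)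
    (σ : GE →* Matrix.orthogonalGroup (Fin m) ℝ)
    (hσ : (σ w : Matrix (Fin m) (Fin m) ℝ) = -1) : False := by
  by_cases h1 : w = 1
  · rw [h1, map_one] at hσ
    have h2 : (1 : Matrix (Fin m) (Fin m) ℝ) = -1 := hσ
    have h3 := congrFun (congrFun h2 ⟨0, hm⟩) ⟨0, hm⟩
    simp only [Matrix.one_apply_eq, Matrix.neg_apply] at h3
    norm_num at h3
  · rw [GE_central hw h1] at hσ
    exact no_rep hm (σ.comp iso.toMonoidHom) hσ

end Ex

end Pool.Agent.Comb7f333f.UPart
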