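import Pool.Agent.Lib.MP_7f333f_an.Defs

set_option autoImplicit false

/-!
The infinite extraspecial `2`-group: it is locally finite and none of its homomorphisms into
orthogonal groups sends the central involution to `-1`.
-/

namespace Pool.Agent.Comb7f333f.UPart

open Finset

/-- The finitely supported sequences of elements of the field with two elements. -/
abbrev V2 : Type := ℕ →₀ ZMod 2

/-- The pairing. -/
noncomputable def bet : V2 →ₗ[ZMod 2] V2 →ₗ[ZMod 2] ZMod 2 :=
  Finsupp.linearCombination (ZMod 2) fun i => (Finsupp.lapply i : V2 →ₗ[ZMod 2] ZMod 2)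

theorem bet_single_left (i : ℕ) (a : V2) : bet (Finsupp.single i 1) a = a i := by
  unfold bet
  rw [Finsupp.linearCombination_single, one_smul]
  rfl

theorem bet_single_right (b : V2) (i : ℕ) : bet b (Finsupp.single i 1) = b i := by
  induction b using Finsupp.induction_linear with
  | zero => simp
  | add b b' hb hb' => rw [map_add, LinearMap.add_apply, hb, hb', Finsupp.add_apply]
  | single j r =>
    have h : Finsupp.single j r = r • (Finsupp.single j 1 : V2) := by
      rw [Finsupp.smul_single, smul_eq_mul, mul_one]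
    rw [h, map_smul, LinearMap.smul_apply, bet_single_left, Finsupp.smul_apply,
      Finsupp.single_apply, Finsupp.single_apply]
    simp only [eq_comm]

/-- The extraspecial group. -/
@[ext]
structure Ex where
  a : V2
  b : V2
  c : ZMod 2

namespace Ex

noncomputable instance : Mul Ex := ⟨fun g h => ⟨g.a + h.a, g.b + h.b, g.c + h.c + bet g.b h.a⟩⟩
noncomputable instance : One Ex := ⟨⟨0, 0, 0⟩⟩
noncomputable instance : Inv Ex := ⟨fun g => ⟨-g.a, -g.b, -g.c + bet g.b g.a⟩⟩

@[simp] theorem mul_a (g h : Ex) : (g * h).a = g.a + h.a := rfl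
@[simp] theorem mul_b (g h : Ex) : (g * h).b = g.b + h.b := rfl
@[simp] theorem mul_c (g h : Ex) : (g * h).c = g.c + h.c + bet g.b h.a := rfl
@[simp] theorem one_a : (1 : Ex).a = 0 := rfl
@[simp] theorem one_b : (1 : Ex).b = 0 := rfl
@[simp] theorem one_c : (1 : Ex).c = 0 := rfl
@[simp] theorem inv_a (g : Ex) : (g⁻¹).a = -g.a := rfl
@[simp] theorem inv_b (g : Ex) : (g⁻¹).b = -g.b := rfl
@[simp] theorem inv_c (g : Ex) : (g⁻¹).c = -g.c + bet g.b g.a := rfl

noncomputable instance : Group Ex where
  mul_assoc g h k := by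
    ext1
    · simp only [mul_a]; abel
    · simp only [mul_b]; abel
    · simp only [mul_a, mul_b, mul_c, map_add, LinearMap.add_apply]; abel
  one_mul g := by
    ext1
    · simp only [mul_a, one_a, zero_add]
    · simp only [mul_b, one_b, zero_add]
    · simp only [mul_c, one_c, one_b, zero_add, map_zero, LinearMap.zero_apply, add_zero]
  mul_one g := by
    ext1
    · simp only [mul_a, one_a, add_zero]
    · simp only [mul_b, one_b, add_zero]
    · simp only [mul_c, one_c, one_a, map_zero, add_zero]
  inv_mul_cancel g := by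
    ext1
    · simp only [mul_a, inv_a, one_a, neg_add_cancel]
    · simp only [mul_b, inv_b, one_b, neg_add_cancel]
    · simp only [mul_c, inv_c, inv_b, one_c, map_neg, LinearMap.neg_apply]; abel

/-- The central involution. -/
def z : Ex := ⟨0, 0, 1⟩

theorem z_comm (g : Ex) : g * z = z * g := by
  ext1
  · simp only [mul_a]; exact add_comm _ _
  · simp only [mul_b]; exact add_comm _ _
  · simp only [mul_c]
    show g.c + 1 + bet g.b 0 = 1 + g.c + bet 0 g.a
    rw [map_zero, map_zero, LinearMap.zero_apply, add_comm g.c]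

theorem z_sq : z * z = 1 := by
  ext1
  · exact add_zero _
  · exact add_zero _
  · show (1 : ZMod 2) + 1 + bet 0 0 = 0
    rw [map_zero, add_zero]
    decide

theorem z_ne : z ≠ 1 := by
  intro h
  have h1 : (1 : ZMod 2) = 0 := congrArg Ex.c h
  exact absurd h1 (by decide)

theorem ne_zero_two {x : ZMod 2} (h : x ≠ 0) : x = 1 := by
  revert h
  revert x
  decide

/-- The elements outside of the centre are conjugate to their products with the involution. -/
theorem exists_anti {g : Ex} (h : g.a ≠ 0 ∨ g.b ≠ 0) : ∃ k : Ex, g * k = z * (k * g) := by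
  by_cases hb : g.b = 0
  · have ha := h.resolve_right (fun h => h hb)
    obtain ⟨i, hi⟩ : ∃ i, g.a i ≠ 0 := by
      by_contra hcon
      push Not at hcon
      exact ha (Finsupp.ext hcon)
    refine ⟨⟨0, Finsupp.single i 1, 0⟩, ?_⟩
    ext1
    · show g.a + 0 = 0 + (0 + g.a)
      rw [add_zero, zero_add, zero_add]
    · show g.b + Finsupp.single i 1 = 0 + (Finsupp.single i 1 + g.b)
      rw [zero_add, add_comm]
    · show g.c + 0 + bet g.b 0 = 1 + (0 + g.c + bet (Finsupp.single i 1) g.a) +
        bet 0 (0 + g.a)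
      rw [bet_single_left, ne_zero_two hi, map_zero, map_zero, LinearMap.zero_apply, add_zero,
        add_zero, add_zero, zero_add]
      have h2 : (1 : ZMod 2) + 1 = 0 := by decide
      calc g.c = g.c + (1 + 1) := by rw [h2, add_zero]
        _ = 1 + (g.c + 1) := by abel
  · obtain ⟨i, hi⟩ : ∃ i, g.b i ≠ 0 := by
      by_contra hcon
      push Not at hcon
      exact hb (Finsupp.ext hcon)
    refine ⟨⟨Finsupp.single i 1, 0, 0⟩, ?_⟩
    ext1
    · show g.a + Finsupp.single i 1 = 0 + (Finsupp.single i 1 + g.a)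
      rw [zero_add, add_comm]
    · show g.b + 0 = 0 + (0 + g.b)
      rw [add_zero, zero_add, zero_add]
    · show g.c + 0 + bet g.b (Finsupp.single i 1) = 1 + (0 + g.c + bet 0 g.a) +
        bet 0 (Finsupp.single i 1 + g.a)
      rw [bet_single_right, ne_zero_two hi, map_zero, LinearMap.zero_apply,
        LinearMap.zero_apply, add_zero, add_zero, add_zero, zero_add, add_comm]

/-- The central elements. -/
theorem eq_z_of_central {g : Ex} (hg : ∀ k, g * k = k * g) (h1 : g ≠ 1) : g = z := by
  by_cases h : g.a ≠ 0 ∨ g.b ≠ 0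
  · exfalso
    obtain ⟨k, hk⟩ := exists_anti h
    rw [hg k] at hk
    refine z_ne ?_
    exact (mul_eq_right.1 hk.symm)
  · push Not at h
    ext1
    · exact h.1
    · exact h.2
    · refine ne_zero_two fun hc => h1 ?_
      ext1
      · exact h.1
      · exact h.2
      · exact hc

noncomputable instance : Countable Ex := by
  have h : Function.Injective (fun g : Ex => (g.a, g.b, g.c)) := by
    intro g h hgh
    simp only [Prod.mk.injEq] at hgh
    exact Ex.ext hgh.1 hgh.2.1 hgh.2.2
  exact h.countable

noncomputable instance : Infinite Ex := by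
  refine Infinite.of_injective (fun i : ℕ => (⟨Finsupp.single i 1, 0, 0⟩ : Ex)) fun i j hij => ?_
  have h1 : (Finsupp.single i 1 : V2) = Finsupp.single j 1 := congrArg Ex.a hij
  exact Finsupp.single_left_injective one_ne_zero h1

/-- An exhausting sequence of finite subgroups. -/
noncomputable def K (n : ℕ) : Subgroup Ex where
  carrier := {g | g.a.support ⊆ range n ∧ g.b.support ⊆ range n}
  one_mem' := by
    constructor
    · show (0 : V2).support ⊆ _
      rw [Finsupp.support_zero]; exact empty_subset _
    · show (0 : V2).support ⊆ _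
      rw [Finsupp.support_zero]; exact empty_subset _
  mul_mem' hg hh := ⟨Finsupp.support_add.trans (union_subset hg.1 hh.1),
    Finsupp.support_add.trans (union_subset hg.2 hh.2)⟩
  inv_mem' {g} hg := by
    constructor
    · show (-g.a).support ⊆ _
      rw [Finsupp.support_neg]; exact hg.1
    · show (-g.b).support ⊆ _
      rw [Finsupp.support_neg]; exact hg.2

theorem finite_V (n : ℕ) : {a : V2 | a.support ⊆ range n}.Finite := by
  refine Set.Finite.of_finite_image (f := fun (a : V2) (i : Fin n) => a i) (Set.toFinite _) ?_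
  intro a ha b hb hab
  ext i
  by_cases hi : i < n
  · exact congrFun hab ⟨i, hi⟩
  · have h1 : a i = 0 := by
      by_contra hcon
      exact hi (mem_range.1 (ha (Finsupp.mem_support_iff.2 hcon)))
    have h2 : b i = 0 := by
      by_contra hcon
      exact hi (mem_range.1 (hb (Finsupp.mem_support_iff.2 hcon)))
    rw [h1, h2]

theorem finite_K (n : ℕ) : (K n : Set Ex).Finite := by
  refine Set.Finite.of_finite_image (f := fun g : Ex => (g.a, g.b, g.c))
    ((((finite_V n).prod ((finite_V n).prod Set.finite_univ))).subset ?_) ?_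
  · rintro _ ⟨g, hg, rfl⟩
    exact ⟨hg.1, hg.2, trivial⟩
  · intro g _ h _ hgh
    simp only [Prod.mk.injEq] at hgh
    exact Ex.ext hgh.1 hgh.2.1 hgh.2.2

theorem K_mono : Monotone K := fun _ _ hmn _ hg =>
  ⟨hg.1.trans (range_mono hmn), hg.2.trans (range_mono hmn)⟩

theorem exists_K (g : Ex) : ∃ n, g ∈ K n := by
  obtain ⟨n, hn⟩ := (g.a.support ∪ g.b.support).exists_nat_subset_range
  exact ⟨n, subset_union_left.trans hn, subset_union_right.trans hn⟩

theorem finite_closure (E : Finset Ex) : Finite (Subgroup.closure (E : Set Ex)) := by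
  classical
  obtain ⟨n, hn⟩ : ∃ n, ∀ g ∈ E, g ∈ K n := by
    induction E using Finset.induction_on with
    | empty => exact ⟨0, fun g hg => absurd hg (notMem_empty _)⟩
    | insert g E _ ih =>
      obtain ⟨n, hn⟩ := ih
      obtain ⟨m, hm⟩ := exists_K g
      refine ⟨max m n, fun k hk => ?_⟩
      rcases mem_insert.1 hk with rfl | hk
      · exact K_mono (le_max_left _ _) hm
      · exact K_mono (le_max_right _ _) (hn k hk)
  have h1 : Subgroup.closure (E : Set Ex) ≤ K n := (Subgroup.closure_le _).2 fun g hg => hn g hg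
  exact Set.finite_coe_iff.2 ((finite_K n).subset h1)

/-- The traces vanish outside of the centre. -/
theorem trace_zero {m : ℕ} (σ : Ex →* Matrix.orthogonalGroup (Fin m) ℝ)
    (hσ : (σ z : Matrix (Fin m) (Fin m) ℝ) = -1) {g : Ex} (h : g.a ≠ 0 ∨ g.b ≠ 0) :
    Matrix.trace (σ g : Matrix (Fin m) (Fin m) ℝ) = 0 := by
  obtain ⟨k, hk⟩ := exists_anti h
  have h1 : g = z * (k * g * k⁻¹) := by
    have h2 : g = g * k * k⁻¹ := by rw [mul_inv_cancel_right]
    rw [hk] at h2
    rw [← mul_assoc z]
    exact h2
  have h3 : Matrix.trace (σ g : Matrix (Fin m) (Fin m) ℝ) =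
      -Matrix.trace (σ g : Matrix (Fin m) (Fin m) ℝ) := by
    conv_lhs => rw [h1]
    rw [map_mul, map_mul, map_mul]
    show Matrix.trace ((σ z : Matrix (Fin m) (Fin m) ℝ) * ((σ k : Matrix (Fin m) (Fin m) ℝ) *
      (σ g : Matrix (Fin m) (Fin m) ℝ) * (σ k⁻¹ : Matrix (Fin m) (Fin m) ℝ))) = _
    rw [hσ, neg_mul, one_mul, Matrix.trace_neg, Matrix.trace_mul_comm, ← Matrix.mul_assoc]
    have h4 : (σ k⁻¹ : Matrix (Fin m) (Fin m) ℝ) * (σ k : Matrix (Fin m) (Fin m) ℝ) = 1 := by
      have h5 : σ k⁻¹ * σ k = 1 := by rw [← map_mul, inv_mul_cancel, map_one]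
      exact congrArg Subtype.val h5
    rw [h4, Matrix.one_mul]
  linarith

/-- There are no odd finite-dimensional representations. -/
theorem no_rep {m : ℕ} (hm : 0 < m) (σ : Ex →* Matrix.orthogonalGroup (Fin m) ℝ)
    (hσ : (σ z : Matrix (Fin m) (Fin m) ℝ) = -1) : False := by
  classical
  -- an independent family
  let v : ℕ → Matrix (Fin m) (Fin m) ℝ := fun i =>
    (σ ⟨Finsupp.single i 1, 0, 0⟩ : Matrix (Fin m) (Fin m) ℝ)
  have hort : ∀ i j, Matrix.trace (star (v i) * v j) = if i = j then (m : ℝ) else 0 := by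
    intro i j
    have h1 : star (v i) * v j = (σ ((⟨Finsupp.single i 1, 0, 0⟩ : Ex)⁻¹ *
        ⟨Finsupp.single j 1, 0, 0⟩) : Matrix (Fin m) (Fin m) ℝ) := by
      rw [map_mul, map_inv]
      rfl
    rw [h1]
    split_ifs with hij
    · rw [hij, inv_mul_cancel, map_one]
      show Matrix.trace (1 : Matrix (Fin m) (Fin m) ℝ) = m
      rw [Matrix.trace_one, Fintype.card_fin]
    · refine trace_zero σ hσ (Or.inl ?_)
      show -(Finsupp.single i 1 : V2) + Finsupp.single j 1 ≠ 0
      intro h2
      have h3 : (Finsupp.single j 1 : V2) = Finsupp.single i 1 := by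
        rw [← sub_eq_zero, sub_eq_add_neg, add_comm]
        exact h2
      exact hij (Finsupp.single_left_injective one_ne_zero h3).symm
  have hli : LinearIndependent ℝ v := by
    rw [linearIndependent_iff']
    intro s g hg i hi
    have h1 : Matrix.trace (star (v i) * ∑ j ∈ s, g j • v j) = 0 := by
      rw [hg, Matrix.mul_zero, Matrix.trace_zero]
    rw [Matrix.mul_sum, Matrix.trace_sum] at h1
    have h2 : ∀ j ∈ s, Matrix.trace (star (v i) * g j • v j) = if i = j then g i * m else 0 := by
      intro j _
      rw [Matrix.mul_smul, Matrix.trace_smul, hort, smul_eq_mul]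
      split_ifs with hij
      · rw [hij]
      · rw [mul_zero]
    rw [sum_congr rfl h2, sum_ite_eq, if_pos hi] at h1
    have h3 : (m : ℝ) ≠ 0 := by positivity
    exact (mul_eq_zero.1 h1).resolve_right h3
  have := hli.finite
  exact not_finite ℕ

end Ex

end Pool.Agent.Comb7f333f.UPart
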