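import Mathlib

set_option autoImplicit false

/-!
Increasing sequences of subgroups with slowly increasing relative indices.
-/

namespace Pool.Agent.Comb7f333f.UPart

variable {G : Type*} [Group G]

/-- The subgroup generated by a subgroup and a central involution. -/
def addZ (H : Subgroup G) (z : G) (hz : ∀ g, g * z = z * g) (hzz : z * z = 1) : Subgroup G where
  carrier := {g | g ∈ H ∨ z * g ∈ H}
  one_mem' := Or.inl H.one_mem
  mul_mem' {g h} hg hh := by
    rcases hg with hg | hg <;> rcases hh with hh | hh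
    · exact Or.inl (H.mul_mem hg hh)
    · refine Or.inr ?_
      have e : z * (g * h) = g * (z * h) := by rw [← mul_assoc, ← hz g, mul_assoc]
      rw [e]
      exact H.mul_mem hg hh
    · refine Or.inr ?_
      rw [← mul_assoc]
      exact H.mul_mem hg hh
    · refine Or.inl ?_
      have e : g * h = (z * g) * (z * h) := by
        calc g * h = (z * z) * (g * h) := by rw [hzz, one_mul]
          _ = z * (z * g) * h := by simp only [mul_assoc]
          _ = z * (g * z) * h := by rw [hz g]
          _ = (z * g) * (z * h) := by simp only [mul_assoc]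
      rw [e]
      exact H.mul_mem hg hh
  inv_mem' {g} hg := by
    rcases hg with hg | hg
    · exact Or.inl (H.inv_mem hg)
    · refine Or.inr ?_
      have hz' : z⁻¹ = z := inv_eq_of_mul_eq_one_left hzz
      have e : z * g⁻¹ = (z * g)⁻¹ := by rw [mul_inv_rev, hz', hz]
      rw [e]
      exact H.inv_mem hg

theorem mem_addZ {H : Subgroup G} {z : G} {hz : ∀ g, g * z = z * g} {hzz : z * z = 1} {g : G} :
    g ∈ addZ H z hz hzz ↔ g ∈ H ∨ z * g ∈ H := Iff.rfl

open Classical in
/-- The sign. -/
noncomputable def eps (H : Subgroup G) (g : G) : ℝ := if g ∈ H then 1 else -1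

theorem eps_mem {H : Subgroup G} {g : G} (h : g ∈ H) : eps H g = 1 := if_pos h

theorem eps_not {H : Subgroup G} {g : G} (h : g ∉ H) : eps H g = -1 := if_neg h

theorem abs_eps (H : Subgroup G) (g : G) : |eps H g| = 1 := by
  unfold eps
  split_ifs <;> simp

theorem eps_mul {H : Subgroup G} {z : G} {hz : ∀ g, g * z = z * g} {hzz : z * z = 1} {g h : G}
    (hg : g ∈ addZ H z hz hzz) (hh : h ∈ addZ H z hz hzz) :
    eps H (g * h) = eps H g * eps H h := by
  by_cases h1 : g ∈ H <;> by_cases h2 : h ∈ H
  · rw [eps_mem h1, eps_mem h2, eps_mem (H.mul_mem h1 h2), one_mul]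
  · rw [eps_mem h1, eps_not h2, eps_not, one_mul]
    intro h3
    refine h2 ?_
    have := H.mul_mem (H.inv_mem h1) h3
    rwa [inv_mul_cancel_left] at this
  · rw [eps_not h1, eps_mem h2, eps_not, mul_one]
    intro h3
    refine h1 ?_
    have := H.mul_mem h3 (H.inv_mem h2)
    rwa [mul_inv_cancel_right] at this
  · rw [eps_not h1, eps_not h2, eps_mem]
    · norm_num
    · have h3 := (mem_addZ.1 hg).resolve_left h1
      have h4 := (mem_addZ.1 hh).resolve_left h2
      have e : g * h = (z * g) * (z * h) := by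
        calc g * h = (z * z) * (g * h) := by rw [hzz, one_mul]
          _ = z * (z * g) * h := by simp only [mul_assoc]
          _ = z * (g * z) * h := by rw [hz g]
          _ = (z * g) * (z * h) := by simp only [mul_assoc]
      rw [e]
      exact H.mul_mem h3 h4

/-- An increasing sequence of subgroups, with union the group, in which the given subgroup has
slowly increasing indices. -/
structure Chain (G0 : Subgroup G) where
  L : ℕ → Subgroup G
  mono : Monotone L
  le : ∀ j, G0 ≤ L j
  ne : ∀ j, G0.relIndex (L j) ≠ 0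
  bound : ∀ j, G0.relIndex (L j) ≤ j + 1
  union : ∀ g, ∃ j, g ∈ L j

theorem exists_chain (G0 : Subgroup G) (K : ℕ → Subgroup G) (hK : Monotone K)
    (h0 : ∀ n, G0 ≤ K n) (hfin : ∀ n, G0.relIndex (K n) ≠ 0) (hU : ∀ g, ∃ n, g ∈ K n) :
    Nonempty (Chain G0) := by
  classical
  let C : ℕ → Subgroup G := fun n => if n = 0 then G0 else K (n - 1)
  have hC0 : C 0 = G0 := rfl
  have hCs : ∀ n, C (n + 1) = K n := fun n => rfl
  have hCm : Monotone C := by
    refine monotone_nat_of_le_succ fun n => ?_
    cases n with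
    | zero => rw [hC0, hCs]; exact h0 0
    | succ n => rw [hCs, hCs]; exact hK (Nat.le_succ n)
  have hCle : ∀ n, G0 ≤ C n := fun n => (hCm (Nat.zero_le n))
  have hCfin : ∀ n, G0.relIndex (C n) ≠ 0 := by
    intro n
    cases n with
    | zero => rw [hC0, Subgroup.relIndex_self]; exact one_ne_zero
    | succ n => rw [hCs]; exact hfin n
  let s : ℕ → ℕ := fun j => Nat.rec 0 (fun j n => if G0.relIndex (C (n + 1)) ≤ j + 2 then n + 1
    else n) j
  have hs0 : s 0 = 0 := rfl
  have hss : ∀ j, s (j + 1) = if G0.relIndex (C (s j + 1)) ≤ j + 2 then s j + 1 else s j :=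
    fun j => rfl
  have hsm : Monotone s := by
    refine monotone_nat_of_le_succ fun j => ?_
    rw [hss]
    split_ifs <;> omega
  have hsb : ∀ j, G0.relIndex (C (s j)) ≤ j + 1 := by
    intro j
    induction j with
    | zero => rw [hs0, hC0, Subgroup.relIndex_self]
    | succ j ih =>
      rw [hss]
      split_ifs with h
      · exact h
      · omega
  have hsu : ∀ n, ∃ j, n ≤ s j := by
    intro n
    induction n with
    | zero => exact ⟨0, Nat.zero_le _⟩
    | succ n ih =>
      obtain ⟨j, hj⟩ := ih
      by_contra hcon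
      push Not at hcon
      have hconst : ∀ i, j ≤ i → s i = n := fun i hi => by
        have h1 := hsm hi
        have h2 := hcon i
        omega
      set i := max j (G0.relIndex (C (n + 1))) with hi
      have h1 : s i = n := hconst i (le_max_left _ _)
      have h2 : s (i + 1) = n := hconst (i + 1) ((le_max_left _ _).trans (Nat.le_succ _))
      rw [hss, h1, if_pos] at h2
      · omega
      · have : G0.relIndex (C (n + 1)) ≤ i := le_max_right _ _
        omega
  refine ⟨⟨fun j => C (s j), hCm.comp hsm, fun j => hCle _, fun j => hCfin _, hsb, fun g => ?_⟩⟩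
  obtain ⟨n, hn⟩ := hU g
  obtain ⟨j, hj⟩ := hsu (n + 1)
  refine ⟨j, hCm hj ?_⟩
  rw [hCs]
  exact hn

namespace Chain

variable {G0 : Subgroup G} (c : Chain G0)

/-- The projection of the cosets. -/
def p (j : ℕ) : G ⧸ G0 → G ⧸ c.L j := Subgroup.quotientMapOfLE (c.le j)

theorem p_mk (j : ℕ) (g : G) : c.p j (g : G ⧸ G0) = (g : G ⧸ c.L j) := rfl

theorem p_eq {j : ℕ} {g g' : G} : c.p j (g : G ⧸ G0) = c.p j (g' : G ⧸ G0) ↔
    g⁻¹ * g' ∈ c.L j := by
  rw [p_mk, p_mk, QuotientGroup.eq]

theorem p_mono {i j : ℕ} (hij : i ≤ j) {y y' : G ⧸ G0} (h : c.p i y = c.p i y') :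
    c.p j y = c.p j y' := by
  induction y using QuotientGroup.induction_on with
  | H g =>
    induction y' using QuotientGroup.induction_on with
    | H g' =>
      rw [p_eq] at h ⊢
      exact c.mono hij h

theorem p_smul (j : ℕ) (g : G) (y y' : G ⧸ G0) :
    c.p j (g • y) = c.p j (g • y') ↔ c.p j y = c.p j y' := by
  induction y using QuotientGroup.induction_on with
  | H a =>
    induction y' using QuotientGroup.induction_on with
    | H b =>
      have e1 : g • (a : G ⧸ G0) = ((g * a : G) : G ⧸ G0) := rfl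
      have e2 : g • (b : G ⧸ G0) = ((g * b : G) : G ⧸ G0) := rfl
      rw [e1, e2, p_eq, p_eq]
      have e3 : (g * a)⁻¹ * (g * b) = a⁻¹ * b := by group
      rw [e3]

/-- The number of the cosets in a larger coset. -/
noncomputable def d (j : ℕ) : ℕ := G0.relIndex (c.L j)

/-- The cosets in the subgroup `L j`. -/
noncomputable def fibEquiv (j : ℕ) :
    (c.L j ⧸ G0.subgroupOf (c.L j)) ≃ {y : G ⧸ G0 // c.p j y = c.p j ((1 : G) : G ⧸ G0)} :=
  Equiv.ofBijective
    (fun q => Quotient.liftOn' q (fun l => ⟨((l : G) : G ⧸ G0), by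
      rw [p_eq, mul_one]
      exact (c.L j).inv_mem l.2⟩) (by
      intro a b hab
      rw [QuotientGroup.leftRel_apply] at hab
      refine Subtype.ext ?_
      show ((a : G) : G ⧸ G0) = ((b : G) : G ⧸ G0)
      rw [QuotientGroup.eq]
      exact hab)) (by
    constructor
    · intro q q' h
      induction q using QuotientGroup.induction_on with
      | H a =>
        induction q' using QuotientGroup.induction_on with
        | H b =>
          have h1 : ((a : G) : G ⧸ G0) = ((b : G) : G ⧸ G0) := congrArg Subtype.val h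
          rw [QuotientGroup.eq] at h1 ⊢
          exact h1
    · rintro ⟨y, hy⟩
      induction y using QuotientGroup.induction_on with
      | H g =>
        rw [p_eq, mul_one] at hy
        have hg : g ∈ c.L j := by
          have := (c.L j).inv_mem hy
          rwa [inv_inv] at this
        exact ⟨((⟨g, hg⟩ : c.L j) : c.L j ⧸ G0.subgroupOf (c.L j)), rfl⟩)

theorem card_fib (j : ℕ) :
    Nat.card {y : G ⧸ G0 // c.p j y = c.p j ((1 : G) : G ⧸ G0)} = c.d j := by
  rw [← Nat.card_congr (c.fibEquiv j)]
  rfl

theorem finite_fib1 (j : ℕ) : Finite {y : G ⧸ G0 // c.p j y = c.p j ((1 : G) : G ⧸ G0)} := by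
  refine Nat.finite_of_card_ne_zero ?_
  rw [card_fib]
  exact c.ne j

theorem finite_fib (j : ℕ) (o : G ⧸ c.L j) : {y : G ⧸ G0 | c.p j y = o}.Finite := by
  induction o using QuotientGroup.induction_on with
  | H g =>
    have h1 : {y : G ⧸ G0 | c.p j y = c.p j ((1 : G) : G ⧸ G0)}.Finite :=
      Set.finite_coe_iff.1 (c.finite_fib1 j)
    refine (h1.image (g • ·)).subset fun y hy => ?_
    refine ⟨g⁻¹ • y, ?_, smul_inv_smul g y⟩
    have hy' : c.p j y = c.p j ((g : G) : G ⧸ G0) := hy
    show c.p j (g⁻¹ • y) = c.p j ((1 : G) : G ⧸ G0)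
    rw [← c.p_smul j g, smul_inv_smul]
    rw [hy']
    have e1 : g • (((1 : G) : G ⧸ G0)) = ((g * 1 : G) : G ⧸ G0) := rfl
    rw [e1, mul_one]

theorem d_dvd (j : ℕ) : c.d j ∣ (j + 1).factorial :=
  Nat.dvd_factorial (Nat.pos_of_ne_zero (c.ne j)) (c.bound j)

include c in
theorem countable_quot : Countable (G ⧸ G0) := by
  have h1 : (Set.univ : Set (G ⧸ G0)) = ⋃ j, {y | c.p j y = c.p j ((1 : G) : G ⧸ G0)} := by
    refine (Set.eq_univ_of_forall fun y => ?_).symm
    induction y using QuotientGroup.induction_on with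
    | H g =>
      obtain ⟨j, hj⟩ := c.union g
      refine Set.mem_iUnion.2 ⟨j, ?_⟩
      show c.p j _ = c.p j _
      rw [p_eq, mul_one]
      exact (c.L j).inv_mem hj
  rw [← Set.countable_univ_iff, h1]
  exact Set.countable_iUnion fun j => (c.finite_fib j _).countable

theorem countable_quot' (j : ℕ) : Countable (G ⧸ c.L j) := by
  have := c.countable_quot
  refine Function.Surjective.countable (f := c.p j) fun o => ?_
  induction o using QuotientGroup.induction_on with
  | H g => exact ⟨((g : G) : G ⧸ G0), rfl⟩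

theorem exists_lev (y : G ⧸ G0) : ∃ j, c.p j y = c.p j ((1 : G) : G ⧸ G0) := by
  induction y using QuotientGroup.induction_on with
  | H g =>
    obtain ⟨j, hj⟩ := c.union g
    refine ⟨j, ?_⟩
    rw [p_eq, mul_one]
    exact (c.L j).inv_mem hj

open Classical in
/-- The level of a coset. -/
noncomputable def lev (y : G ⧸ G0) : ℕ := Nat.find (c.exists_lev y)

open Classical in
theorem lev_spec (y : G ⧸ G0) : c.p (c.lev y) y = c.p (c.lev y) ((1 : G) : G ⧸ G0) :=
  Nat.find_spec (c.exists_lev y)

theorem p_eq_iff_lev {y : G ⧸ G0} {j : ℕ} :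
    c.p j y = c.p j ((1 : G) : G ⧸ G0) ↔ c.lev y ≤ j := by
  classical
  constructor
  · exact fun h => Nat.find_le h
  · exact fun h => c.p_mono h (c.lev_spec y)

end Chain

end Pool.Agent.Comb7f333f.UPart
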