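import Pool.Agent.Lib.MP_7f333f_an.Un.UCap

set_option autoImplicit false

/-!
The combinatorial space of the family absorbs the `c₀`-sums of finite dimensional combinatorial
spaces.
-/

namespace Pool.Agent.Comb7f333f.UPart

open Finset
open Nat (pair unpair)

open Classical in
/-- The restriction of the finitely supported functions. -/
noncomputable def fl (𝔹 : Set ℕ) : (ℕ →₀ ℝ) →ₗ[ℝ] (ℕ →₀ ℝ) where
  toFun := Finsupp.filter (· ∈ 𝔹)
  map_add' _ _ := Finsupp.filter_add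
  map_smul' _ _ := Finsupp.filter_smul

theorem fl_apply (𝔹 : Set ℕ) (a : ℕ →₀ ℝ) (n : ℕ) [Decidable (n ∈ 𝔹)] :
    fl 𝔹 a n = if n ∈ 𝔹 then a n else 0 := by
  classical
  show Finsupp.filter (· ∈ 𝔹) a n = _
  rw [Finsupp.filter_apply]
  split_ifs <;> rfl

theorem fl_single_mem {𝔹 : Set ℕ} {n : ℕ} (h : n ∈ 𝔹) (r : ℝ) :
    fl 𝔹 (Finsupp.single n r) = Finsupp.single n r := by
  classical
  exact Finsupp.filter_single_of_pos _ h

theorem fl_single_not {𝔹 : Set ℕ} {n : ℕ} (h : n ∉ 𝔹) (r : ℝ) :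
    fl 𝔹 (Finsupp.single n r) = 0 := by
  classical
  exact Finsupp.filter_single_of_neg _ h

/-- The operator of a map on some of the blocks. -/
noncomputable def opB (𝔹 : Set ℕ) (σ : ℕ → ℕ) : (ℕ →₀ ℝ) →ₗ[ℝ] (ℕ →₀ ℝ) :=
  bsum.comp ((Finsupp.lmapDomain ℝ ℝ σ).comp ((fl 𝔹).comp dn))

theorem opB_single_mem {𝔹 : Set ℕ} {σ : ℕ → ℕ} {k : ℕ} (h : bi k ∈ 𝔹) :
    opB 𝔹 σ (Finsupp.single k 1) = uv (σ (bi k)) := by
  show bsum (Finsupp.mapDomain σ (fl 𝔹 (dn (Finsupp.single k 1)))) = _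
  rw [dn_single, fl_single_mem h, Finsupp.mapDomain_single, bsum_single, one_smul]

theorem opB_single_not {𝔹 : Set ℕ} {σ : ℕ → ℕ} {k : ℕ} (h : bi k ∉ 𝔹) :
    opB 𝔹 σ (Finsupp.single k 1) = 0 := by
  show bsum (Finsupp.mapDomain σ (fl 𝔹 (dn (Finsupp.single k 1)))) = _
  rw [dn_single, fl_single_not h, Finsupp.mapDomain_zero, map_zero]

theorem opB_uv_mem {𝔹 : Set ℕ} {σ : ℕ → ℕ} {n : ℕ} (h : n ∈ 𝔹) :
    opB 𝔹 σ (uv n) = uv (σ n) := by
  show bsum (Finsupp.mapDomain σ (fl 𝔹 (dn (uv n)))) = _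
  rw [dn_uv, fl_single_mem h, Finsupp.mapDomain_single, bsum_single, one_smul]

theorem opB_uv_not {𝔹 : Set ℕ} {σ : ℕ → ℕ} {n : ℕ} (h : n ∉ 𝔹) :
    opB 𝔹 σ (uv n) = 0 := by
  show bsum (Finsupp.mapDomain σ (fl 𝔹 (dn (uv n)))) = _
  rw [dn_uv, fl_single_not h, Finsupp.mapDomain_zero, map_zero]

theorem combNorm_opB (𝔹 : Set ℕ) (σ : ℕ → ℕ) (hσ : Set.InjOn σ 𝔹)
    (h𝔹 : ∀ b ∈ 𝔹, blk b ∈ unF)
    (hcol : ∀ c, ∃ c', (∀ E ∈ D c, E ∈ D c') ∧ ∀ b ∈ 𝔹, ∀ R, σ b = pair c R → b = pair c' R)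
    (a : ℕ →₀ ℝ) : combNorm unF (opB 𝔹 σ a) ≤ 2 * combNorm unF a :=
  combNorm_op 𝔹 σ hσ h𝔹 hcol a

/-- The next copy of a block. -/
def up (b : ℕ) : ℕ :=
  pair (pair (unpair (unpair b).1).1 ((unpair (unpair b).1).2 + 1)) (unpair b).2

/-- The previous copy of a block. -/
def dw (b : ℕ) : ℕ :=
  pair (pair (unpair (unpair b).1).1 ((unpair (unpair b).1).2 - 1)) (unpair b).2

theorem up_pair (l n R : ℕ) : up (pair (pair l n) R) = pair (pair l (n + 1)) R := by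
  simp [up, Nat.unpair_pair]

theorem dw_pair (l n R : ℕ) : dw (pair (pair l (n + 1)) R) = pair (pair l n) R := by
  simp [dw, Nat.unpair_pair]

/-- A system of finite complexes. -/
structure Sys (W : Type*) where
  enc : W → ℕ
  enc_inj : Function.Injective enc
  comp : W → ℕ
  fin : ∀ m, {w | comp w = m}.Finite
  𝓢 : Set (Finset W)
  hered : ∀ S ∈ 𝓢, ∀ S' ⊆ S, S' ∈ 𝓢
  single : ∀ w, {w} ∈ 𝓢
  one : ∀ S ∈ 𝓢, ∀ w ∈ S, ∀ w' ∈ S, comp w = comp w'

namespace Sys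

variable {W : Type*} (s : Sys W)

open Classical in
/-- The complex of a component. -/
noncomputable def cx (m : ℕ) : Finset (Finset ℕ) :=
  ((s.fin m).toFinset.powerset.filter (· ∈ s.𝓢)).image fun S => S.image s.enc

open Classical in
theorem mem_cx {m : ℕ} {E : Finset ℕ} :
    E ∈ s.cx m ↔ ∃ S ∈ s.𝓢, (∀ w ∈ S, s.comp w = m) ∧ S.image s.enc = E := by
  simp only [cx, mem_image, mem_filter, mem_powerset]
  constructor
  · rintro ⟨S, ⟨h1, h2⟩, h3⟩
    exact ⟨S, h2, fun w hw => by simpa using h1 hw, h3⟩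
  · rintro ⟨S, h2, h1, h3⟩
    exact ⟨S, ⟨fun w hw => by simpa using h1 w hw, h2⟩, h3⟩

/-- The label of a point. -/
noncomputable def lam (w : W) : ℕ := pair (Encodable.encode (s.cx (s.comp w))) (s.comp w)

/-- The block of the copy `n` of a point. -/
noncomputable def bb (n : ℕ) (w : W) : ℕ := pair (pair (s.lam w) n) (s.enc w)

theorem D_lam (w : W) (n : ℕ) : D (pair (s.lam w) n) = s.cx (s.comp w) := by
  rw [D_pair, lam, DD_pair]

theorem bb_inj {n n' : ℕ} {w w' : W} (h : s.bb n w = s.bb n' w') : n = n' ∧ w = w' := by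
  have h1 := Nat.pair_eq_pair.1 h
  exact ⟨(Nat.pair_eq_pair.1 h1.1).2, s.enc_inj h1.2⟩

theorem up_bb (n : ℕ) (w : W) : up (s.bb n w) = s.bb (n + 1) w := up_pair _ _ _

theorem dw_bb (n : ℕ) (w : W) : dw (s.bb (n + 1) w) = s.bb n w := dw_pair _ _ _

/-- All the blocks. -/
def B : Set ℕ := {b | ∃ n w, b = s.bb n w}

/-- The blocks of the copies of positive index. -/
def B1 : Set ℕ := {b | ∃ n w, b = s.bb (n + 1) w}

/-- The blocks of the first copy. -/
def B0 : Set ℕ := {b | ∃ w, b = s.bb 0 w}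

theorem blk_mem {b : ℕ} (hb : b ∈ s.B) : blk b ∈ unF := by
  classical
  obtain ⟨n, w, rfl⟩ := hb
  have h1 : ({s.enc w} : Finset ℕ) ∈ D (pair (s.lam w) n) := by
    rw [D_lam]
    exact s.mem_cx.2 ⟨{w}, s.single w, fun w' hw' => by rw [mem_singleton.1 hw'], by simp⟩
  have h2 := unF_blocks h1
  rwa [singleton_biUnion] at h2

theorem B1_sub {b : ℕ} (hb : b ∈ s.B1) : b ∈ s.B := by
  obtain ⟨n, w, rfl⟩ := hb
  exact ⟨n + 1, w, rfl⟩

/-- The operator. -/
noncomputable def S : (ℕ →₀ ℝ) →ₗ[ℝ] (ℕ →₀ ℝ) := LinearMap.id - opB s.B id + opB s.B up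

/-- The left inverse. -/
noncomputable def S' : (ℕ →₀ ℝ) →ₗ[ℝ] (ℕ →₀ ℝ) := LinearMap.id - opB s.B id + opB s.B1 dw

theorem norm_id (a : ℕ →₀ ℝ) : combNorm unF (opB s.B id a) ≤ 2 * combNorm unF a :=
  combNorm_opB _ _ Function.injective_id.injOn (fun _ h => s.blk_mem h)
    (fun c => ⟨c, fun _ h => h, fun _ _ _ h => h⟩) a

theorem norm_up (a : ℕ →₀ ℝ) : combNorm unF (opB s.B up a) ≤ 2 * combNorm unF a := by
  refine combNorm_opB _ _ ?_ (fun _ h => s.blk_mem h) (fun c => ?_) a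
  · rintro _ ⟨n, w, rfl⟩ _ ⟨n', w', rfl⟩ h
    rw [up_bb, up_bb] at h
    obtain ⟨h1, rfl⟩ := s.bb_inj h
    rw [Nat.succ_injective h1]
  · refine ⟨pair (unpair c).1 ((unpair c).2 - 1), fun E hE => ?_, ?_⟩
    · rw [D_pair]
      exact hE
    · rintro _ ⟨n, w, rfl⟩ R h
      rw [up_bb] at h
      have h1 := Nat.pair_eq_pair.1 h
      rw [← h1.1, ← h1.2, Nat.unpair_pair]
      rfl

theorem norm_dw (a : ℕ →₀ ℝ) : combNorm unF (opB s.B1 dw a) ≤ 2 * combNorm unF a := by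
  refine combNorm_opB _ _ ?_ (fun _ h => s.blk_mem (s.B1_sub h)) (fun c => ?_) a
  · rintro _ ⟨n, w, rfl⟩ _ ⟨n', w', rfl⟩ h
    rw [dw_bb, dw_bb] at h
    obtain ⟨rfl, rfl⟩ := s.bb_inj h
    rfl
  · refine ⟨pair (unpair c).1 ((unpair c).2 + 1), fun E hE => ?_, ?_⟩
    · rw [D_pair]
      exact hE
    · rintro _ ⟨n, w, rfl⟩ R h
      rw [dw_bb] at h
      have h1 := Nat.pair_eq_pair.1 h
      rw [← h1.1, ← h1.2, Nat.unpair_pair]
      rfl

theorem combNorm_three {x y z : ℕ →₀ ℝ} {B : ℝ} (hx : combNorm unF x ≤ B)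
    (hy : combNorm unF y ≤ 2 * B) (hz : combNorm unF z ≤ 2 * B) :
    combNorm unF (x - y + z) ≤ 5 * B := by
  have h1 := combNorm_add_le unF (x - y) z
  have h2 := combNorm_add_le unF x (-y)
  have h3 : combNorm unF (-y) = combNorm unF y := by
    have := combNorm_smul unF (-1) y
    rw [neg_one_smul] at this
    rw [this]
    norm_num
  rw [← sub_eq_add_neg] at h2
  linarith

theorem norm_S (a : ℕ →₀ ℝ) : combNorm unF (s.S a) ≤ 5 * combNorm unF a :=
  combNorm_three le_rfl (s.norm_id a) (s.norm_up a)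

theorem norm_S' (a : ℕ →₀ ℝ) : combNorm unF (s.S' a) ≤ 5 * combNorm unF a :=
  combNorm_three le_rfl (s.norm_id a) (s.norm_dw a)

theorem S_apply (a : ℕ →₀ ℝ) : s.S a = a - opB s.B id a + opB s.B up a := rfl

theorem S'_apply (a : ℕ →₀ ℝ) : s.S' a = a - opB s.B id a + opB s.B1 dw a := rfl

theorem S_uv {b : ℕ} (hb : b ∈ s.B) : s.S (uv b) = uv (up b) := by
  rw [S_apply, opB_uv_mem hb, opB_uv_mem hb]
  simp

theorem S'_uv1 {b : ℕ} (hb : b ∈ s.B1) : s.S' (uv b) = uv (dw b) := by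
  rw [S'_apply, opB_uv_mem (s.B1_sub hb), opB_uv_mem hb]
  simp

theorem S'_uv0 {b : ℕ} (hb : b ∈ s.B) (hb' : b ∉ s.B1) : s.S' (uv b) = 0 := by
  rw [S'_apply, opB_uv_mem hb, opB_uv_not hb']
  simp

theorem B_cases {b : ℕ} (hb : b ∈ s.B) : b ∈ s.B0 ∧ b ∉ s.B1 ∨ b ∉ s.B0 ∧ b ∈ s.B1 := by
  obtain ⟨n, w, rfl⟩ := hb
  cases n with
  | zero =>
    left
    refine ⟨⟨w, rfl⟩, ?_⟩
    rintro ⟨n', w', h⟩
    have := (s.bb_inj h).1
    omega
  | succ n =>
    right
    refine ⟨?_, ⟨n, w, rfl⟩⟩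
    rintro ⟨w', h⟩
    have := (s.bb_inj h).1
    omega

theorem B0_sub {b : ℕ} (hb : b ∈ s.B0) : b ∈ s.B := by
  obtain ⟨w, rfl⟩ := hb
  exact ⟨0, w, rfl⟩

theorem up_mem {b : ℕ} (hb : b ∈ s.B) : up b ∈ s.B1 := by
  obtain ⟨n, w, rfl⟩ := hb
  exact ⟨n, w, s.up_bb n w⟩

theorem dw_mem {b : ℕ} (hb : b ∈ s.B1) : dw b ∈ s.B := by
  obtain ⟨n, w, rfl⟩ := hb
  exact ⟨n, w, s.dw_bb n w⟩

theorem dw_up {b : ℕ} (hb : b ∈ s.B) : dw (up b) = b := by
  obtain ⟨n, w, rfl⟩ := hb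
  rw [up_bb, dw_bb]

theorem up_dw {b : ℕ} (hb : b ∈ s.B1) : up (dw b) = b := by
  obtain ⟨n, w, rfl⟩ := hb
  rw [dw_bb, up_bb]

theorem S_single (k : ℕ) (hk : bi k ∈ s.B) :
    s.S (Finsupp.single k 1) = Finsupp.single k 1 - uv (bi k) + uv (up (bi k)) := by
  rw [S_apply, opB_single_mem hk, opB_single_mem hk]
  rfl

theorem S_single_not (k : ℕ) (hk : bi k ∉ s.B) :
    s.S (Finsupp.single k 1) = Finsupp.single k 1 := by
  rw [S_apply, opB_single_not hk, opB_single_not hk]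
  simp

theorem S'_single0 (k : ℕ) (hk : bi k ∈ s.B) (hk1 : bi k ∉ s.B1) :
    s.S' (Finsupp.single k 1) = Finsupp.single k 1 - uv (bi k) := by
  rw [S'_apply, opB_single_mem hk, opB_single_not hk1]
  simp

theorem S'_single1 (k : ℕ) (hk1 : bi k ∈ s.B1) :
    s.S' (Finsupp.single k 1) = Finsupp.single k 1 - uv (bi k) + uv (dw (bi k)) := by
  rw [S'_apply, opB_single_mem (s.B1_sub hk1), opB_single_mem hk1]
  rfl

theorem S'_single_not (k : ℕ) (hk : bi k ∉ s.B) :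
    s.S' (Finsupp.single k 1) = Finsupp.single k 1 := by
  rw [S'_apply, opB_single_not hk, opB_single_not fun h => hk (s.B1_sub h)]
  simp

theorem S'_S (x : ℕ →₀ ℝ) : s.S' (s.S x) = x := by
  have h1 : s.S'.comp s.S = LinearMap.id := by
    refine Finsupp.lhom_ext' fun k => LinearMap.ext_ring ?_
    show s.S' (s.S (Finsupp.single k 1)) = Finsupp.single k 1
    by_cases hk : bi k ∈ s.B
    · rw [s.S_single k hk, map_add, map_sub, s.S'_uv1 (s.up_mem hk), s.dw_up hk]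
      rcases s.B_cases hk with ⟨-, h⟩ | ⟨-, h⟩
      · rw [s.S'_single0 k hk h, s.S'_uv0 hk h]
        simp
      · rw [s.S'_single1 k h, s.S'_uv1 h]
        abel
    · rw [s.S_single_not k hk, s.S'_single_not k hk]
  exact congrArg (fun L : (ℕ →₀ ℝ) →ₗ[ℝ] (ℕ →₀ ℝ) => L x) h1

/-- The map onto the finitely supported functions. -/
noncomputable def Lm : (ℕ ⊕ W →₀ ℝ) →ₗ[ℝ] (ℕ →₀ ℝ) :=
  Finsupp.linearCombination ℝ (Sum.elim (fun k => s.S (Finsupp.single k 1))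
    fun w => uv (s.bb 0 w))

open Classical in
/-- The points of the blocks of the first copy. -/
noncomputable def binv (b : ℕ) : ℕ ⊕ W :=
  if h : ∃ w, b = s.bb 0 w then Sum.inr h.choose else Sum.inl 0

theorem binv_bb (w : W) : s.binv (s.bb 0 w) = Sum.inr w := by
  classical
  unfold binv
  have h : ∃ w', s.bb 0 w = s.bb 0 w' := ⟨w, rfl⟩
  rw [dif_pos h]
  congr 1
  exact (s.bb_inj h.choose_spec).2.symm

/-- The inverse map. -/
noncomputable def Mv : (ℕ →₀ ℝ) →ₗ[ℝ] (ℕ ⊕ W →₀ ℝ) :=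
  (Finsupp.lmapDomain ℝ ℝ Sum.inl).comp s.S' +
    (Finsupp.lmapDomain ℝ ℝ s.binv).comp ((fl s.B0).comp dn)

theorem Mv_apply (x : ℕ →₀ ℝ) : s.Mv x = Finsupp.mapDomain Sum.inl (s.S' x) +
    Finsupp.mapDomain s.binv (fl s.B0 (dn x)) := rfl

theorem Lm_inl (v : ℕ →₀ ℝ) : s.Lm (Finsupp.mapDomain Sum.inl v) = s.S v := by
  unfold Lm
  rw [Finsupp.linearCombination_mapDomain]
  have h1 : Finsupp.linearCombination ℝ ((Sum.elim (fun k => s.S (Finsupp.single k 1))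
      fun w => uv (s.bb 0 w)) ∘ Sum.inl) = s.S := by
    refine Finsupp.lhom_ext' fun k => LinearMap.ext_ring ?_
    show Finsupp.linearCombination ℝ _ (Finsupp.single k 1) = s.S (Finsupp.single k 1)
    rw [Finsupp.linearCombination_single, one_smul]
    rfl
  rw [h1]

theorem Mv_uv0 (w : W) : s.Mv (uv (s.bb 0 w)) = Finsupp.single (Sum.inr w) 1 := by
  have h0 : s.bb 0 w ∈ s.B0 := ⟨w, rfl⟩
  have h1 : s.bb 0 w ∉ s.B1 := by
    rcases s.B_cases (s.B0_sub h0) with h | h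
    · exact h.2
    · exact absurd h0 h.1
  rw [Mv_apply, s.S'_uv0 (s.B0_sub h0) h1, Finsupp.mapDomain_zero, dn_uv, fl_single_mem h0,
    Finsupp.mapDomain_single, binv_bb, zero_add]

theorem fl_dn_S (v : ℕ →₀ ℝ) : fl s.B0 (dn (s.S v)) = 0 := by
  have h1 : (fl s.B0).comp (dn.comp s.S) = 0 := by
    refine Finsupp.lhom_ext' fun k => LinearMap.ext_ring ?_
    show fl s.B0 (dn (s.S (Finsupp.single k 1))) = 0
    by_cases hk : bi k ∈ s.B
    · rw [s.S_single k hk, map_add, map_sub, dn_single, dn_uv, dn_uv, sub_self, zero_add]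
      refine fl_single_not (fun h => ?_) 1
      rcases s.B_cases (s.B0_sub h) with h' | h'
      · exact h'.2 (s.up_mem hk)
      · exact h'.1 h
    · rw [s.S_single_not k hk, dn_single]
      exact fl_single_not (fun h => hk (s.B0_sub h)) 1
  exact congrArg (fun L : (ℕ →₀ ℝ) →ₗ[ℝ] (ℕ →₀ ℝ) => L v) h1

theorem Mv_Lm (a : ℕ ⊕ W →₀ ℝ) : s.Mv (s.Lm a) = a := by
  have h1 : s.Mv.comp s.Lm = LinearMap.id := by
    refine Finsupp.lhom_ext' fun i => LinearMap.ext_ring ?_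
    show s.Mv (s.Lm (Finsupp.single i 1)) = Finsupp.single i 1
    unfold Lm
    rw [Finsupp.linearCombination_single, one_smul]
    rcases i with k | w
    · show s.Mv (s.S (Finsupp.single k 1)) = _
      rw [Mv_apply, s.S'_S, s.fl_dn_S, Finsupp.mapDomain_zero, add_zero,
        Finsupp.mapDomain_single]
    · exact s.Mv_uv0 w
  exact congrArg (fun L : (ℕ ⊕ W →₀ ℝ) →ₗ[ℝ] (ℕ ⊕ W →₀ ℝ) => L a) h1

theorem Lm_binv (w : W) : s.Lm (Finsupp.single (s.binv (s.bb 0 w)) 1) = uv (s.bb 0 w) := by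
  rw [binv_bb]
  unfold Lm
  rw [Finsupp.linearCombination_single, one_smul]
  rfl

theorem Lm_Mv (x : ℕ →₀ ℝ) : s.Lm (s.Mv x) = x := by
  have h1 : s.Lm.comp s.Mv = LinearMap.id := by
    refine Finsupp.lhom_ext' fun k => LinearMap.ext_ring ?_
    show s.Lm (s.Mv (Finsupp.single k 1)) = Finsupp.single k 1
    rw [Mv_apply, map_add, s.Lm_inl, dn_single]
    by_cases hk : bi k ∈ s.B
    · rcases s.B_cases hk with ⟨h0, h⟩ | ⟨h0, h⟩
      · rw [s.S'_single0 k hk h, fl_single_mem h0, Finsupp.mapDomain_single, map_sub,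
          s.S_single k hk, s.S_uv hk]
        obtain ⟨w, hw⟩ := h0
        rw [hw, s.Lm_binv]
        abel
      · rw [s.S'_single1 k h, fl_single_not h0, Finsupp.mapDomain_zero, map_zero, map_add,
          map_sub, s.S_single k hk, s.S_uv hk, s.S_uv (s.dw_mem h), s.up_dw h]
        abel
    · rw [s.S'_single_not k hk, fl_single_not fun h => hk (s.B0_sub h),
        Finsupp.mapDomain_zero, map_zero, s.S_single_not k hk, add_zero]
  exact congrArg (fun L : (ℕ →₀ ℝ) →ₗ[ℝ] (ℕ →₀ ℝ) => L x) h1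

theorem Mv_inl (x : ℕ →₀ ℝ) (k : ℕ) : s.Mv x (Sum.inl k) = s.S' x k := by
  classical
  rw [Mv_apply, Finsupp.add_apply, Finsupp.mapDomain_apply Sum.inl_injective]
  have h1 : Finsupp.mapDomain s.binv (fl s.B0 (dn x)) (Sum.inl k) = 0 := by
    rw [Finsupp.mapDomain, Finsupp.sum, Finsupp.finsetSum_apply]
    refine sum_eq_zero fun b hb => ?_
    have hb0 : b ∈ s.B0 := by
      by_contra hcon
      rw [Finsupp.mem_support_iff, fl_apply, if_neg hcon] at hb
      exact hb rfl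
    obtain ⟨w, rfl⟩ := hb0
    rw [binv_bb]
    exact Finsupp.single_eq_of_ne (by simp)
  rw [h1, add_zero]

theorem Mv_inr (x : ℕ →₀ ℝ) (w : W) : s.Mv x (Sum.inr w) = dn x (s.bb 0 w) := by
  classical
  rw [Mv_apply, Finsupp.add_apply, Finsupp.mapDomain_of_notMem_range _ _ (by simp), zero_add]
  rw [Finsupp.mapDomain, Finsupp.sum, Finsupp.finsetSum_apply]
  have h0 : s.bb 0 w ∈ s.B0 := ⟨w, rfl⟩
  have hval : fl s.B0 (dn x) (s.bb 0 w) = dn x (s.bb 0 w) := by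
    rw [fl_apply, if_pos h0]
  rw [← hval]
  by_cases h1 : s.bb 0 w ∈ (fl s.B0 (dn x)).support
  · rw [sum_eq_single (s.bb 0 w)]
    · rw [binv_bb, Finsupp.single_eq_same]
    · intro b hb hne
      have hb0 : b ∈ s.B0 := by
        by_contra hcon
        rw [Finsupp.mem_support_iff, fl_apply, if_neg hcon] at hb
        exact hb rfl
      obtain ⟨w', rfl⟩ := hb0
      rw [binv_bb]
      refine Finsupp.single_eq_of_ne fun h => hne ?_
      rw [Sum.inr_injective h]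
    · exact fun h => absurd h1 h
  · rw [Finsupp.notMem_support_iff.1 h1]
    refine sum_eq_zero fun b hb => ?_
    have hb0 : b ∈ s.B0 := by
      by_contra hcon
      rw [Finsupp.mem_support_iff, fl_apply, if_neg hcon] at hb
      exact hb rfl
    obtain ⟨w', rfl⟩ := hb0
    rw [binv_bb]
    refine Finsupp.single_eq_of_ne fun h => h1 ?_
    rw [Sum.inr_injective h]
    exact hb

/-- The first bound for the inverse. -/
theorem bound_inl (x : ℕ →₀ ℝ) {A : Finset ℕ} (hA : A ∈ unF) :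
    ∑ k ∈ A, |s.Mv x (Sum.inl k)| ≤ 5 * combNorm unF x := by
  simp only [Mv_inl]
  exact (le_combNorm _ hA).trans (s.norm_S' x)

/-- The second bound for the inverse. -/
theorem bound_inr (x : ℕ →₀ ℝ) {T : Finset W} (hT : T ∈ s.𝓢) :
    ∑ w ∈ T, |s.Mv x (Sum.inr w)| ≤ combNorm unF x := by
  classical
  simp only [Mv_inr]
  rcases T.eq_empty_or_nonempty with rfl | ⟨w0, hw0⟩
  · rw [sum_empty]
    exact combNorm_nonneg _ _
  · have h1 : T.image s.enc ∈ D (pair (s.lam w0) 0) := by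
      rw [D_lam]
      exact s.mem_cx.2 ⟨T, hT, fun w hw => s.one T hT w hw w0 hw0, rfl⟩
    have h2 := sum_dn_le x h1
    rw [sum_image (fun _ _ _ _ h => s.enc_inj h)] at h2
    refine le_trans (le_of_eq (sum_congr rfl fun w hw => ?_)) h2
    have h3 : s.lam w = s.lam w0 := by
      unfold lam
      rw [s.one T hT w hw w0 hw0]
    unfold bb
    rw [h3]

/-- The bound for the map. -/
theorem bound_Lm (a : ℕ ⊕ W →₀ ℝ) (B : ℝ) (h1 : ∀ A ∈ unF, ∑ k ∈ A, |a (Sum.inl k)| ≤ B)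
    (h2 : ∀ T ∈ s.𝓢, ∑ w ∈ T, |a (Sum.inr w)| ≤ B) : combNorm unF (s.Lm a) ≤ 7 * B := by
  classical
  have hB : 0 ≤ B := by
    have := h1 ∅ (unF_small (by simp))
    simpa using this
  set y : ℕ →₀ ℝ := a.comapDomain Sum.inl Sum.inl_injective.injOn with hy
  set v : W →₀ ℝ := a.comapDomain Sum.inr Sum.inr_injective.injOn with hv
  have hya : ∀ k, y k = a (Sum.inl k) := fun k => rfl
  have hva : ∀ w, v w = a (Sum.inr w) := fun w => rfl
  have hdec : a = Finsupp.mapDomain Sum.inl y + Finsupp.mapDomain Sum.inr v := by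
    ext i
    rcases i with k | w
    · rw [Finsupp.add_apply, Finsupp.mapDomain_apply Sum.inl_injective,
        Finsupp.mapDomain_of_notMem_range _ _ (by simp), add_zero, hya]
    · rw [Finsupp.add_apply, Finsupp.mapDomain_apply Sum.inr_injective,
        Finsupp.mapDomain_of_notMem_range _ _ (by simp), zero_add, hva]
  have hLr : s.Lm (Finsupp.mapDomain Sum.inr v) = bsum (Finsupp.mapDomain (s.bb 0) v) := by
    unfold Lm bsum
    rw [Finsupp.linearCombination_mapDomain, Finsupp.linearCombination_mapDomain]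
    rfl
  have hinj : Function.Injective (s.bb 0) := fun w w' h => (s.bb_inj h).2
  have e1 : combNorm unF (s.S y) ≤ 5 * B := by
    refine (s.norm_S y).trans (mul_le_mul_of_nonneg_left ?_ (by norm_num))
    exact combNorm_le _ hB fun A hA => h1 A hA
  have e2 : combNorm unF (bsum (Finsupp.mapDomain (s.bb 0) v)) ≤ 2 * B := by
    refine combNorm_bsum _ B hB (fun n => ?_) fun c E hE => ?_
    · by_cases hn : n ∈ Set.range (s.bb 0)
      · obtain ⟨w, rfl⟩ := hn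
        rw [Finsupp.mapDomain_apply hinj]
        have := h2 {w} (s.single w)
        rwa [sum_singleton] at this
      · rw [Finsupp.mapDomain_of_notMem_range _ _ hn, abs_zero]
        exact hB
    · by_cases hc : ∃ w, c = pair (s.lam w) 0
      · obtain ⟨w0, rfl⟩ := hc
        rw [D_lam] at hE
        obtain ⟨T, hT, hT1, rfl⟩ := s.mem_cx.1 hE
        rw [sum_image (fun _ _ _ _ h => s.enc_inj h)]
        refine le_trans (le_of_eq (sum_congr rfl fun w hw => ?_)) (h2 T hT)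
        have h3 : s.lam w = s.lam w0 := by
          unfold lam
          rw [hT1 w hw]
        have h4 : pair (pair (s.lam w0) 0) (s.enc w) = s.bb 0 w := by
          unfold bb
          rw [h3]
        rw [h4, Finsupp.mapDomain_apply hinj]
        rfl
      · refine le_trans (le_of_eq (sum_eq_zero fun R _ => ?_)) hB
        rw [Finsupp.mapDomain_of_notMem_range, abs_zero]
        rintro ⟨w, hw⟩
        exact hc ⟨w, (Nat.pair_eq_pair.1 hw).1.symm⟩
  rw [hdec, map_add, s.Lm_inl, hLr]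
  refine (combNorm_add_le _ _ _).trans ?_
  linarith

end Sys

end Pool.Agent.Comb7f333f.UPart
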