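import Pool.Agent.Lib.MP_7f333f_an.Un.UAct

set_option autoImplicit false

/-!
Groups which are locally of finite index over an open subgroup.
-/

namespace Pool.Agent.Comb7f333f.UPart

open Finset

/-- The cosets of an open subgroup. -/
theorem countable_quot_open {G : Subgroup (Equiv.Perm ℕ)} {H : Subgroup G} {F0 : Finset ℕ}
    (hF0 : ∀ g : G, (∀ n ∈ F0, (g : Equiv.Perm ℕ) n = n) → g ∈ H) : Countable (G ⧸ H) := by
  refine Function.Injective.countable
    (f := fun (q : G ⧸ H) (n : {n // n ∈ F0}) => ((Quotient.out q : G) : Equiv.Perm ℕ) n.1)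
    fun q q' h => ?_
  have h1 : (Quotient.out q)⁻¹ * Quotient.out q' ∈ H := by
    refine hF0 _ fun n hn => ?_
    have h2 : ((Quotient.out q : G) : Equiv.Perm ℕ) n = ((Quotient.out q' : G) : Equiv.Perm ℕ) n :=
      congrFun h ⟨n, hn⟩
    show ((Quotient.out q : G) : Equiv.Perm ℕ)⁻¹ (((Quotient.out q' : G) : Equiv.Perm ℕ) n) = n
    rw [← h2]
    exact Equiv.symm_apply_apply ((Quotient.out q : G) : Equiv.Perm ℕ) n
  rw [← QuotientGroup.out_eq' q, ← QuotientGroup.out_eq' q']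
  exact QuotientGroup.eq.2 h1

theorem exists_K {G : Subgroup (Equiv.Perm ℕ)} {H : Subgroup G} {F0 : Finset ℕ}
    (hF0 : ∀ g : G, (∀ n ∈ F0, (g : Equiv.Perm ℕ) n = n) → g ∈ H)
    (hloc : ∀ E : Finset G, H.relIndex (H ⊔ Subgroup.closure (E : Set G)) ≠ 0) :
    ∃ K : ℕ → Subgroup G, Monotone K ∧ (∀ n, H ≤ K n) ∧ (∀ n, H.relIndex (K n) ≠ 0) ∧
      ∀ g, ∃ n, g ∈ K n := by
  classical
  have := countable_quot_open hF0
  obtain ⟨f, hf⟩ := exists_surjective_nat (G ⧸ H)
  refine ⟨fun n => H ⊔ Subgroup.closure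
    (((Finset.range n).image fun i => Quotient.out (f i) : Finset G) : Set G), ?_,
    fun n => le_sup_left, fun n => hloc _, fun g => ?_⟩
  · intro m n hmn
    refine sup_le_sup_left (Subgroup.closure_mono ?_) H
    exact_mod_cast image_subset_image (range_mono hmn)
  · obtain ⟨i, hi⟩ := hf (g : G ⧸ H)
    refine ⟨i + 1, ?_⟩
    have h1 : (Quotient.out (f i))⁻¹ * g ∈ H := by
      rw [← QuotientGroup.eq, QuotientGroup.out_eq', hi]
    have h2 : g = Quotient.out (f i) * ((Quotient.out (f i))⁻¹ * g) := by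
      rw [mul_inv_cancel_left]
    rw [h2]
    refine Subgroup.mul_mem _ ?_ ?_
    · refine (le_sup_right : _ ≤ H ⊔ _) (Subgroup.subset_closure ?_)
      rw [mem_coe]
      exact mem_image_of_mem _ (self_mem_range_succ i)
    · exact (le_sup_left : H ≤ _) h1

/-- In a Roelcke precompact group, the open subgroups over which the group is locally of finite
index have finite index. -/
theorem finiteIndex_of_roelcke {G : Subgroup (Equiv.Perm ℕ)} {H : Subgroup G} {F0 : Finset ℕ}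
    (hF0 : ∀ g : G, (∀ n ∈ F0, (g : Equiv.Perm ℕ) n = n) → g ∈ H)
    (hloc : ∀ E : Finset G, H.relIndex (H ⊔ Subgroup.closure (E : Set G)) ≠ 0)
    (hR : ∀ F : Finset ℕ, ∃ S : Set (Equiv.Perm ℕ), S.Finite ∧
      ∀ g ∈ G, ∃ s ∈ S, ∃ v ∈ G, ∃ w ∈ G,
        (∀ n ∈ F, v n = n) ∧ (∀ n ∈ F, w n = n) ∧ g = v * s * w) :
    H.FiniteIndex := by
  classical
  obtain ⟨S, hS, hSG⟩ := hR F0
  have hS' : {g : G | (g : Equiv.Perm ℕ) ∈ S}.Finite :=
    Set.Finite.preimage Subtype.val_injective.injOn hS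
  have htop : H ⊔ Subgroup.closure ((hS'.toFinset : Finset G) : Set G) = ⊤ := by
    rw [eq_top_iff]
    intro g _
    obtain ⟨s, hs, v, hv, w, hw, hvF, hwF, hg⟩ := hSG g.1 g.2
    have hsG : s ∈ G := by
      have h1 : s = v⁻¹ * g.1 * w⁻¹ := by rw [hg]; group
      rw [h1]
      exact G.mul_mem (G.mul_mem (G.inv_mem hv) g.2) (G.inv_mem hw)
    have h2 : g = (⟨v, hv⟩ : G) * (⟨s, hsG⟩ : G) * (⟨w, hw⟩ : G) := Subtype.ext hg
    rw [h2]
    refine Subgroup.mul_mem _ (Subgroup.mul_mem _ ?_ ?_) ?_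
    · exact (le_sup_left : H ≤ _) (hF0 _ hvF)
    · refine (le_sup_right : _ ≤ H ⊔ _) (Subgroup.subset_closure ?_)
      rw [mem_coe, Set.Finite.mem_toFinset]
      exact hs
    · exact (le_sup_left : H ≤ _) (hF0 _ hwF)
  have h3 := hloc hS'.toFinset
  rw [htop, Subgroup.relIndex_top_right] at h3
  exact ⟨h3⟩

theorem relIndex_ne_zero_of_finiteIndex {G : Type*} [Group G] {H : Subgroup G}
    (h : H.FiniteIndex) (K : Subgroup G) : H.relIndex K ≠ 0 := by
  intro h0
  refine h.index_ne_zero ?_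
  exact Subgroup.index_eq_zero_of_relIndex_eq_zero h0

end Pool.Agent.Comb7f333f.UPart
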