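import Pool.Agent.Lib.MP_7f333f_an.Un.UIso
import Pool.Agent.Lib.MP_7f333f_an.Un.UGrp
import Pool.Agent.Lib.MP_7f333f_an.Ex.Ops

set_option autoImplicit false

/-!
The odd representation of a group which is locally of finite index over an open subgroup.
-/

namespace Pool.Agent.Comb7f333f.UPart

open Finset
open Nat (pair unpair)

theorem unF_of_image {A : Finset ℕ} (f : ℕ → ℕ) (hf : Set.InjOn f A)
    (hbi : ∀ k ∈ A, bi (f k) = bi k) (h : A.image f ∈ unF) : A ∈ unF := by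
  classical
  have hinv : ∀ k ∈ A, Function.invFunOn f A (f k) = k := fun k hk =>
    hf.leftInvOn_invFunOn (Finset.mem_coe.2 hk)
  have h1 := unF_image h (Function.invFunOn f A) (by
    intro x hx y hy hxy
    obtain ⟨a, ha, rfl⟩ := Finset.mem_image.1 (Finset.mem_coe.1 hx)
    obtain ⟨b, hb, rfl⟩ := Finset.mem_image.1 (Finset.mem_coe.1 hy)
    rw [hinv a ha, hinv b hb] at hxy
    rw [hxy]) (by
    intro x hx
    obtain ⟨a, ha, rfl⟩ := Finset.mem_image.1 hx
    rw [hinv a ha, hbi a ha])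
  have h2 : (A.image f).image (Function.invFunOn f A) = A := by
    rw [image_image]
    ext k
    rw [mem_image]
    constructor
    · rintro ⟨a, ha, rfl⟩
      rw [Function.comp_apply, hinv a ha]
      exact ha
    · intro hk
      exact ⟨k, hk, hinv k hk⟩
  rwa [h2] at h1

namespace Chain

variable {G : Type*} [Group G] {G0 : Subgroup G} (c : Chain G0)

/-- The number of the points of a level in a coset. -/
noncomputable def t (j : ℕ) : ℕ := ln j / c.d j

theorem d_mul_t (j : ℕ) : c.d j * c.t j = ln j := by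
  refine Nat.mul_div_cancel' ((c.d_dvd j).trans ?_)
  unfold ln
  rw [mul_assoc]
  exact Nat.dvd_mul_right _ _

/-- The points. -/
abbrev I : Type _ := (G ⧸ G0) × (Σ j, Fin (c.t j))

/-- The points of the standard path. -/
def Pth (i : c.I) : Prop := c.p i.2.1 i.1 = c.p i.2.1 ((1 : G) : G ⧸ G0)

theorem exists_ej (j : ℕ) : Nonempty
    (({y : G ⧸ G0 // c.p j y = c.p j ((1 : G) : G ⧸ G0)} × Fin (c.t j)) ≃ {k // k ∈ blk j}) := by
  classical
  have := c.finite_fib1 j
  let _ : Fintype {y : G ⧸ G0 // c.p j y = c.p j ((1 : G) : G ⧸ G0)} := Fintype.ofFinite _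
  refine ⟨Fintype.equivOfCardEq ?_⟩
  rw [Fintype.card_prod, Fintype.card_fin, ← Nat.card_eq_fintype_card, c.card_fib, c.d_mul_t,
    Fintype.card_coe, card_blk]

/-- The enumeration of a level. -/
noncomputable def ej (j : ℕ) :
    ({y : G ⧸ G0 // c.p j y = c.p j ((1 : G) : G ⧸ G0)} × Fin (c.t j)) ≃ {k // k ∈ blk j} :=
  Classical.choice (c.exists_ej j)

/-- The enumeration of the standard path. -/
noncomputable def kp (i : {i : c.I // c.Pth i}) : ℕ :=
  (c.ej i.1.2.1 (⟨i.1.1, i.2⟩, i.1.2.2)).1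

theorem bi_kp (i : {i : c.I // c.Pth i}) : bi (c.kp i) = i.1.2.1 :=
  bi_eq_iff.2 (c.ej i.1.2.1 (⟨i.1.1, i.2⟩, i.1.2.2)).2

theorem kp_bijective : Function.Bijective c.kp := by
  constructor
  · rintro ⟨⟨y, ⟨j, a⟩⟩, h⟩ ⟨⟨y', ⟨j', a'⟩⟩, h'⟩ heq
    have hj : j = j' := by
      have h1 := c.bi_kp ⟨⟨y, ⟨j, a⟩⟩, h⟩
      have h2 := c.bi_kp ⟨⟨y', ⟨j', a'⟩⟩, h'⟩
      rw [heq] at h1
      exact h1.symm.trans h2
    subst hj
    have h1 := (c.ej j).injective (Subtype.ext heq)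
    have h2 := congrArg Prod.fst h1
    have h3 := congrArg Prod.snd h1
    have h4 : y = y' := congrArg Subtype.val h2
    have h5 : a = a' := h3
    subst h4 h5
    rfl
  · intro k
    obtain ⟨q, hq⟩ := (c.ej (bi k)).surjective ⟨k, mem_blk_bi k⟩
    refine ⟨⟨⟨q.1.1, ⟨bi k, q.2⟩⟩, q.1.2⟩, ?_⟩
    show (c.ej (bi k) (⟨q.1.1, _⟩, q.2)).1 = k
    have : ((⟨q.1.1, q.1.2⟩ : {y : G ⧸ G0 // c.p (bi k) y = c.p (bi k) ((1 : G) : G ⧸ G0)}), q.2) =
        q := rfl
    rw [this, hq]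

/-- The enumeration of the standard path. -/
noncomputable def kpe : {i : c.I // c.Pth i} ≃ ℕ := Equiv.ofBijective c.kp c.kp_bijective

/-- The points off the standard path. -/
abbrev W : Type _ := {i : c.I // ¬ c.Pth i}

open Classical in
/-- The decomposition of the points. -/
noncomputable def Xi : c.I ≃ ℕ ⊕ c.W :=
  (Equiv.sumCompl c.Pth).symm.trans (Equiv.sumCongr c.kpe (Equiv.refl _))

theorem Xi_path (i : {i : c.I // c.Pth i}) : c.Xi i.1 = Sum.inl (c.kp i) := by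
  classical
  show (Equiv.sumCongr c.kpe (Equiv.refl _)) ((Equiv.sumCompl c.Pth).symm i.1) = _
  rw [Equiv.sumCompl_symm_apply_of_pos i.2]
  rfl

theorem Xi_off (w : c.W) : c.Xi w.1 = Sum.inr w := by
  classical
  show (Equiv.sumCongr c.kpe (Equiv.refl _)) ((Equiv.sumCompl c.Pth).symm w.1) = _
  rw [Equiv.sumCompl_symm_apply_of_neg w.2]
  rfl

theorem Xi_symm_inl (i : {i : c.I // c.Pth i}) : c.Xi.symm (Sum.inl (c.kp i)) = i.1 := by
  rw [← Xi_path, Equiv.symm_apply_apply]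

theorem Xi_symm_inr (w : c.W) : c.Xi.symm (Sum.inr w) = w.1 := by
  rw [← Xi_off, Equiv.symm_apply_apply]

/-- The admissible sets. -/
def Adm (S : Finset c.I) : Prop :=
  (∃ y0 : G ⧸ G0, ∀ i ∈ S, c.p i.2.1 i.1 = c.p i.2.1 y0) ∧
    ∃ θ : c.I → ℕ, Set.InjOn θ S ∧ (∀ i ∈ S, bi (θ i) = i.2.1) ∧
      ∃ A ∈ unF, ∀ i ∈ S, θ i ∈ A

variable {c}

theorem Adm.mono {S S' : Finset c.I} (h : c.Adm S) (hS : S' ⊆ S) : c.Adm S' := by
  obtain ⟨⟨y0, h0⟩, θ, h1, h2, A, hA, h3⟩ := h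
  exact ⟨⟨y0, fun i hi => h0 i (hS hi)⟩, θ, h1.mono (by exact_mod_cast hS),
    fun i hi => h2 i (hS hi), A, hA, fun i hi => h3 i (hS hi)⟩

theorem adm_single (i : c.I) : c.Adm {i} := by
  obtain ⟨k, hk⟩ : ∃ k, k ∈ blk i.2.1 := by
    have h := ln_pos i.2.1
    rw [← card_blk, card_pos] at h
    exact h
  refine ⟨⟨i.1, fun i' hi' => by rw [mem_singleton.1 hi']⟩, fun _ => k, ?_, ?_, {k},
    unF_small (by simp), fun _ _ => mem_singleton_self k⟩
  · rw [coe_singleton]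
    exact Set.injOn_singleton _ _
  · intro i' hi'
    rw [mem_singleton.1 hi']
    exact bi_eq_iff.2 hk

/-- The group acts on the admissible sets. -/
theorem Adm.smul [DecidableEq c.I] {S : Finset c.I} (h : c.Adm S) (g : G) :
    c.Adm (S.image fun i => (g • i.1, i.2)) := by
  obtain ⟨⟨y0, h0⟩, θ, h1, h2, A, hA, h3⟩ := h
  refine ⟨⟨g • y0, ?_⟩, fun i => θ (g⁻¹ • i.1, i.2), ?_, ?_, A, hA, ?_⟩
  · intro i hi
    obtain ⟨i', hi', rfl⟩ := mem_image.1 hi
    exact (c.p_smul _ g _ _).2 (h0 i' hi')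
  · intro i hi i2 hi2 hii
    obtain ⟨i', hi', rfl⟩ := mem_image.1 (mem_coe.1 hi)
    obtain ⟨i2', hi2', rfl⟩ := mem_image.1 (mem_coe.1 hi2)
    simp only [inv_smul_smul, Prod.mk.eta] at hii
    rw [h1 (mem_coe.2 hi') (mem_coe.2 hi2') hii]
  · intro i hi
    obtain ⟨i', hi', rfl⟩ := mem_image.1 hi
    simp only [inv_smul_smul, Prod.mk.eta]
    exact h2 i' hi'
  · intro i hi
    obtain ⟨i', hi', rfl⟩ := mem_image.1 hi
    simp only [inv_smul_smul, Prod.mk.eta]
    exact h3 i' hi'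

/-- The sets of the family are admissible subsets of the standard path. -/
theorem adm_inl [DecidableEq c.I] {A : Finset ℕ} (hA : A ∈ unF) :
    c.Adm (A.image fun k => c.Xi.symm (Sum.inl k)) := by
  classical
  have key : ∀ k, ∃ i : {i : c.I // c.Pth i}, c.kp i = k := fun k => c.kp_bijective.2 k
  refine ⟨⟨((1 : G) : G ⧸ G0), ?_⟩, fun i => if h : c.Pth i then c.kp ⟨i, h⟩ else 0, ?_, ?_, A,
    hA, ?_⟩
  · intro i hi
    obtain ⟨k, -, rfl⟩ := mem_image.1 hi
    obtain ⟨i, rfl⟩ := key k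
    rw [Xi_symm_inl]
    exact i.2
  · intro i hi i2 hi2 hii
    obtain ⟨k, -, rfl⟩ := mem_image.1 (mem_coe.1 hi)
    obtain ⟨k2, -, rfl⟩ := mem_image.1 (mem_coe.1 hi2)
    obtain ⟨i, rfl⟩ := key k
    obtain ⟨i2, rfl⟩ := key k2
    simp only [Xi_symm_inl, i.2, i2.2, dif_pos] at hii ⊢
    have := c.kp_bijective.1 hii
    exact congrArg Subtype.val this
  · intro i hi
    obtain ⟨k, -, rfl⟩ := mem_image.1 hi
    obtain ⟨i, rfl⟩ := key k
    simp only [Xi_symm_inl, i.2, dif_pos]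
    exact c.bi_kp i
  · intro i hi
    obtain ⟨k, hk, rfl⟩ := mem_image.1 hi
    obtain ⟨i, rfl⟩ := key k
    simp only [Xi_symm_inl, i.2, dif_pos]
    exact hk

/-- The part of an admissible set in the standard path. -/
theorem Adm.path {S : Finset c.I} (h : c.Adm S) (A : Finset ℕ)
    (hA : ∀ k ∈ A, c.Xi.symm (Sum.inl k) ∈ S) : A ∈ unF := by
  classical
  obtain ⟨-, θ, h1, h2, A', hA', h3⟩ := h
  have hinj : ∀ k k', c.Xi.symm (Sum.inl k) = c.Xi.symm (Sum.inl k') → k = k' := fun k k' hk =>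
    Sum.inl_injective (c.Xi.symm.injective hk)
  refine unF_of_image (fun k => θ (c.Xi.symm (Sum.inl k))) ?_ ?_ ?_
  · intro k hk k' hk' hkk
    exact hinj _ _ (h1 (mem_coe.2 (hA k hk)) (mem_coe.2 (hA k' hk')) hkk)
  · intro k hk
    rw [h2 _ (hA k hk)]
    obtain ⟨i, rfl⟩ := c.kp_bijective.2 k
    rw [Xi_symm_inl, bi_kp]
  · refine unF_hered hA' fun a ha => ?_
    obtain ⟨k, hk, rfl⟩ := mem_image.1 ha
    exact h3 _ (hA k hk)

/-- The points off the path in an admissible set belong to one component. -/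
theorem Adm.one {S : Finset c.I} (h : c.Adm S) {i i' : c.I} (hi : i ∈ S) (hi' : i' ∈ S)
    (hp : ¬ c.Pth i) (hp' : ¬ c.Pth i') : c.lev i.1 = c.lev i'.1 ∧
      c.p (c.lev i.1 - 1) i.1 = c.p (c.lev i.1 - 1) i'.1 := by
  obtain ⟨⟨y0, h0⟩, -⟩ := h
  have key : ∀ i ∈ S, ¬ c.Pth i → i.2.1 < c.lev i.1 ∧ c.lev i.1 = c.lev y0 ∧
      c.p (c.lev i.1 - 1) i.1 = c.p (c.lev i.1 - 1) y0 := by
    intro i hi hp
    have h1 : i.2.1 < c.lev i.1 := by
      by_contra hcon
      push Not at hcon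
      exact hp (c.p_eq_iff_lev.2 hcon)
    have h2 := h0 i hi
    have h3 : ∀ j, i.2.1 ≤ j → c.p j i.1 = c.p j y0 := fun j hj => c.p_mono hj h2
    have h4 : c.lev i.1 = c.lev y0 := by
      apply le_antisymm
      · by_contra hcon
        push Not at hcon
        -- the level of `y0` is smaller
        rcases le_or_gt i.2.1 (c.lev y0) with h5 | h5
        · have h6 := h3 _ h5
          rw [c.lev_spec y0] at h6
          have h7 := c.p_eq_iff_lev.1 h6
          omega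
        · have h6 : c.p i.2.1 y0 = c.p i.2.1 ((1 : G) : G ⧸ G0) := c.p_eq_iff_lev.2 h5.le
          exact hp (h2.trans h6)
      · have h5 := h3 _ h1.le
        rw [c.lev_spec i.1] at h5
        exact c.p_eq_iff_lev.1 h5.symm
    exact ⟨h1, h4, h3 _ (by omega)⟩
  obtain ⟨-, h1, h2⟩ := key i hi hp
  obtain ⟨-, h1', h2'⟩ := key i' hi' hp'
  have h3 : c.lev i.1 = c.lev i'.1 := h1.trans h1'.symm
  refine ⟨h3, ?_⟩
  rw [h2, h3, h2']

variable (c)

theorem exists_cc (l : ℕ) : ∃ f : (G ⧸ c.L l) → ℕ, Function.Injective f := by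
  have := c.countable_quot' l
  exact Countable.exists_injective_nat _

/-- A code of the cosets. -/
noncomputable def cc (l : ℕ) : (G ⧸ c.L l) → ℕ := (c.exists_cc l).choose

theorem cc_inj (l : ℕ) : Function.Injective (c.cc l) := (c.exists_cc l).choose_spec

theorem exists_encW : ∃ f : c.W → ℕ, Function.Injective f := by
  have := c.countable_quot
  exact Countable.exists_injective_nat _

/-- The system of the components. -/
noncomputable def sys : Sys c.W where
  enc := c.exists_encW.choose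
  enc_inj := c.exists_encW.choose_spec
  comp w := pair (c.lev w.1.1 - 1) (c.cc _ (c.p (c.lev w.1.1 - 1) w.1.1))
  fin m := by
    classical
    set l := (unpair m).1 with hl
    -- the coset
    have h1 : {y : G ⧸ G0 | c.cc l (c.p l y) = (unpair m).2}.Finite := by
      by_cases hex : ∃ o, c.cc l o = (unpair m).2
      · obtain ⟨o, ho⟩ := hex
        refine (c.finite_fib l o).subset fun y hy => ?_
        exact c.cc_inj l ((show c.cc l (c.p l y) = (unpair m).2 from hy).trans ho.symm)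
      · convert Set.finite_empty
        ext y
        simp only [Set.mem_ofPred_eq, Set.mem_empty_iff_false, iff_false]
        exact fun hy => hex ⟨_, hy⟩
    have h2 : {τ : Σ j, Fin (c.t j) | τ.1 ≤ l}.Finite := by
      refine ((Finset.range (l + 1)).sigma fun j =>
        (Finset.univ : Finset (Fin (c.t j)))).finite_toSet.subset fun τ hτ => ?_
      rw [mem_coe, mem_sigma, Finset.mem_range]
      exact ⟨Nat.lt_succ_of_le hτ, mem_univ _⟩
    refine Set.Finite.of_finite_image (f := Subtype.val) ((h1.prod h2).subset ?_)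
      Subtype.val_injective.injOn
    rintro _ ⟨w, hw, rfl⟩
    have hw' : pair (c.lev w.1.1 - 1) (c.cc _ (c.p (c.lev w.1.1 - 1) w.1.1)) = m := hw
    have h3 : l = c.lev w.1.1 - 1 := by rw [hl, ← hw', Nat.unpair_pair]
    have h4 : (unpair m).2 = c.cc _ (c.p (c.lev w.1.1 - 1) w.1.1) := by
      rw [← hw', Nat.unpair_pair]
    refine ⟨?_, ?_⟩
    · show c.cc l (c.p l w.1.1) = (unpair m).2
      rw [h4, h3]
    · show w.1.2.1 ≤ l
      have h5 : w.1.2.1 < c.lev w.1.1 := by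
        by_contra hcon
        push Not at hcon
        exact w.2 (c.p_eq_iff_lev.2 hcon)
      omega
  𝓢 := {S | c.Adm (S.map ⟨Subtype.val, Subtype.val_injective⟩)}
  hered S hS S' hS' := hS.mono (Finset.map_subset_map.2 hS')
  single w := by
    show c.Adm _
    rw [map_singleton]
    exact adm_single _
  one S hS w hw w' hw' := by
    have h1 := Adm.one hS (mem_map_of_mem _ hw) (mem_map_of_mem _ hw') w.2 w'.2
    have h2 : c.lev w.1.1 = c.lev w'.1.1 := h1.1
    have h3 : c.p (c.lev w.1.1 - 1) w.1.1 = c.p (c.lev w.1.1 - 1) w'.1.1 := h1.2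
    show pair (c.lev w.1.1 - 1) (c.cc (c.lev w.1.1 - 1) (c.p (c.lev w.1.1 - 1) w.1.1)) =
      pair (c.lev w'.1.1 - 1) (c.cc (c.lev w'.1.1 - 1) (c.p (c.lev w'.1.1 - 1) w'.1.1))
    rw [h3, h2]

/-- The coordinates on the points. -/
noncomputable def rI : (c.I →₀ ℝ) ≃ₗ[ℝ] (ℕ ⊕ c.W →₀ ℝ) := Finsupp.domLCongr c.Xi

theorem rI_apply (a : c.I →₀ ℝ) (j : ℕ ⊕ c.W) : c.rI a j = a (c.Xi.symm j) := rfl

theorem rI_symm_apply (a : ℕ ⊕ c.W →₀ ℝ) (i : c.I) : c.rI.symm a i = a (c.Xi i) := rfl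

/-- The norms of the coordinates. -/
theorem bound_adm (x : ℕ →₀ ℝ) {S : Finset c.I} (hS : c.Adm S) :
    ∑ i ∈ S, |c.rI.symm (c.sys.Mv x) i| ≤ 6 * combNorm unF x := by
  classical
  rw [← sum_filter_add_sum_filter_not S c.Pth]
  have h1 : ∑ i ∈ S.filter c.Pth, |c.rI.symm (c.sys.Mv x) i| ≤ 5 * combNorm unF x := by
    rw [← Finset.sum_subtype_eq_sum_filter]
    have e1 : ∑ i ∈ S.subtype c.Pth, |c.rI.symm (c.sys.Mv x) i.1| =
        ∑ k ∈ (S.subtype c.Pth).image c.kp, |c.sys.Mv x (Sum.inl k)| := by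
      rw [sum_image (fun _ _ _ _ h => c.kp_bijective.1 h)]
      refine sum_congr rfl fun i _ => ?_
      rw [rI_symm_apply, Xi_path]
    rw [e1]
    refine c.sys.bound_inl x (hS.path _ fun k hk => ?_)
    obtain ⟨i, hi, rfl⟩ := mem_image.1 hk
    rw [Xi_symm_inl]
    exact mem_subtype.1 hi
  have h2 : ∑ i ∈ S.filter (fun i => ¬ c.Pth i), |c.rI.symm (c.sys.Mv x) i| ≤
      combNorm unF x := by
    rw [← Finset.sum_subtype_eq_sum_filter]
    have e1 : ∑ i ∈ S.subtype (fun i => ¬ c.Pth i), |c.rI.symm (c.sys.Mv x) i.1| =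
        ∑ w ∈ S.subtype (fun i => ¬ c.Pth i), |c.sys.Mv x (Sum.inr w)| := by
      refine sum_congr rfl fun w _ => ?_
      rw [rI_symm_apply, Xi_off]
    rw [e1]
    refine c.sys.bound_inr x ?_
    show c.Adm _
    refine hS.mono fun i hi => ?_
    obtain ⟨w, hw, rfl⟩ := mem_map.1 hi
    exact mem_subtype.1 hw
  linarith

theorem bound_map (a : c.I →₀ ℝ) (B : ℝ) (h : ∀ S, c.Adm S → ∑ i ∈ S, |a i| ≤ B) :
    combNorm unF (c.sys.Lm (c.rI a)) ≤ 7 * B := by
  classical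
  refine c.sys.bound_Lm _ B (fun A hA => ?_) fun T hT => ?_
  · refine le_trans (le_of_eq ?_) (h _ (adm_inl hA))
    rw [sum_image (fun _ _ _ _ h => Sum.inl_injective (c.Xi.symm.injective h))]
    rfl
  · refine le_trans (le_of_eq ?_) (h _ hT)
    rw [sum_map]
    refine sum_congr rfl fun w _ => ?_
    rw [rI_apply, Xi_symm_inr]
    rfl

end Chain

end Pool.Agent.Comb7f333f.UPart
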